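import Pool.Agent.H84R6.Meas

set_option autoImplicit false

namespace Pool.Agent.H84R6

open Encodable Classical Set

/-- the orbit relation -/
abbrev FF (u v : Sq) : Prop := sys.R u v

theorem FF_iff {u v : Sq} : FF u v ↔ F0 u v ∨ ∃ x y, F0 u (jj x) ∧ F0 v (jj y) ∧ EE x y := by
  show (F0 u v ∨ ∃ x y, F0 u (jj x) ∧ F0 v (jj y) ∧ sys.E x y) ↔ _
  simp only [E_iff]
  constructor
  · rintro (h | ⟨x, y, h1, h2, h3, h4⟩)
    · exact Or.inl h
    · exact Or.inr ⟨x, y, h1, h2, h4, h3⟩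
  · rintro (h | ⟨x, y, h1, h2, h3, h4⟩)
    · exact Or.inl h
    · exact Or.inr ⟨x, y, h1, h2, h4, h3⟩

theorem FF.symm {u v : Sq} (h : FF u v) : FF v u := sys.R_symm h
theorem FF.trans {u v w : Sq} (h : FF u v) (h' : FF v w) : FF u w := sys.R_trans h h'

theorem jj_F0 {x y : Ca} (h : F0 (jj x) (jj y)) : x = y := jj_inj (F0_odd (jj_odd x) (jj_odd y) h)

theorem L1 {x y : Ca} : FF (jj x) (jj y) ↔ EE x y := by
  rw [FF_iff]
  constructor
  · rintro (h | ⟨x', y', h1, h2, h3⟩)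
    · rw [jj_F0 h]; exact EE.refl _
    · rw [jj_F0 h1, jj_F0 h2]; exact h3
  · intro h
    exact Or.inr ⟨x, y, F0.refl _, F0.refl _, h⟩

theorem L2 {u v : Sq} (h : FF u v) (hu : u ∈ fin) : v ∈ fin := by
  rw [mem_fin] at hu ⊢
  rcases FF_iff.1 h with h | ⟨x, y, -, h2, -⟩
  · obtain ⟨x, hx⟩ := hu
    exact ⟨x, h.symm.trans hx⟩
  · exact ⟨y, h2⟩

theorem L3 {u v : Sq} (h : FF u v) (hu : u ∉ fin) : F0 u v := by
  rcases FF_iff.1 h with h | ⟨x, y, h1, -, -⟩
  · exact h
  · exact absurd (mem_fin.2 ⟨x, h1⟩) hu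

theorem jj_fin (x : Ca) : jj x ∈ fin := mem_fin.2 ⟨x, F0.refl _⟩

noncomputable def ri : Ca → ℕ × Sq := rinv_ex.choose
theorem meas_ri : Measurable ri := rinv_ex.choose_spec.1
theorem ri_rr (k : ℕ) (u : Sq) : ri (rr k u) = (k, u) := congrFun rinv_ex.choose_spec.2 (k, u)

/-- the range of the junk embedding -/
def RI : Set Ca := {y | rp (ri y) = y ∧ (ri y).2 ∉ fin}

theorem mem_RI {y : Ca} : y ∈ RI ↔ ∃ k u, u ∉ fin ∧ rr k u = y := by
  constructor
  · rintro ⟨h1, h2⟩
    exact ⟨_, _, h2, h1⟩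
  · rintro ⟨k, u, h1, rfl⟩
    show rp (ri (rr k u)) = rr k u ∧ (ri (rr k u)).2 ∉ fin
    rw [ri_rr]
    exact ⟨rfl, h1⟩

theorem ms_RI : MeasurableSet RI :=
  (measurableSet_eq_fun (meas_rp.comp meas_ri) measurable_id).inter
    ((measurable_snd.comp meas_ri) ms_fin.compl)

def AA : Set Ca := {x | ∃ e, fe e x ∈ RI ∧ tle x (fe e x)}

theorem ms_tle (e : ℕ) : MeasurableSet {x : Ca | tle x (fe e x)} := by
  have : {x : Ca | tle x (fe e x)} = ⋃ i, {x : Ca | fe i (fe e x) = x} := by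
    ext x
    simp only [mem_iUnion]
    exact tle_iff_fe
  rw [this]
  exact MeasurableSet.iUnion fun i => measurableSet_eq_fun ((meas_fe i).comp (meas_fe e))
    measurable_id

theorem ms_AAe (e : ℕ) : MeasurableSet {x : Ca | fe e x ∈ RI ∧ tle x (fe e x)} :=
  (meas_fe e ms_RI).inter (ms_tle e)

theorem ms_AA : MeasurableSet AA := by
  have : AA = ⋃ e, {x : Ca | fe e x ∈ RI ∧ tle x (fe e x)} := by
    ext x
    simp only [mem_iUnion]
    rfl
  rw [this]
  exact MeasurableSet.iUnion fun e => ms_AAe e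

theorem mem_AA {x : Ca} : x ∈ AA ↔ ∃ k u, u ∉ fin ∧ EE (rr k u) x := by
  constructor
  · rintro ⟨e, h1, h2⟩
    obtain ⟨k, u, h3, h4⟩ := mem_RI.1 h1
    refine ⟨k, u, h3, ?_, ?_⟩
    · rw [h4]; exact tle_fe e x
    · rw [h4]; exact h2
  · rintro ⟨k, u, h1, h2, h3⟩
    obtain ⟨e, he⟩ := tle_iff_fe.1 h2
    refine ⟨e, ?_, ?_⟩
    · rw [he]; exact mem_RI.2 ⟨k, u, h1, rfl⟩
    · rw [he]; exact h3

theorem AA_sat {x y : Ca} (h : EE x y) (hx : x ∈ AA) : y ∈ AA := by
  rw [mem_AA] at hx ⊢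
  obtain ⟨k, u, h1, h2⟩ := hx
  exact ⟨k, u, h1, h2.trans h⟩

theorem NN_ex (x : Ca) : ∃ e, x ∉ AA ∨ (fe e x ∈ RI ∧ tle x (fe e x)) := by
  by_cases h : x ∈ AA
  · obtain ⟨e, he⟩ := h
    exact ⟨e, Or.inr he⟩
  · exact ⟨0, Or.inl h⟩

noncomputable def NN (x : Ca) : ℕ := Nat.find (NN_ex x)

theorem meas_NN : Measurable NN := by
  apply measurable_find
  intro e
  exact ms_AA.compl.union (ms_AAe e)

/-- the canonical junk representative -/
noncomputable def V (x : Ca) : ℕ × Sq := ri (fe (NN x) x)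

theorem meas_V : Measurable V := meas_ri.comp (meas_sel meas_NN meas_fe)

theorem V_spec {x : Ca} (h : x ∈ AA) : (V x).2 ∉ fin ∧ EE (rr (V x).1 (V x).2) x := by
  rcases Nat.find_spec (NN_ex x) with h1 | ⟨h1, h2⟩
  · exact absurd h h1
  · obtain ⟨k, u, h3, h4⟩ := mem_RI.1 h1
    have h5 : V x = (k, u) := by
      show ri (fe (Nat.find (NN_ex x)) x) = (k, u)
      rw [← h4, ri_rr]
    rw [h5]
    refine ⟨h3, ?_, ?_⟩
    · show tle (rr k u) x
      rw [h4]; exact tle_fe _ x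
    · show tle x (rr k u)
      rw [h4]; exact h2

theorem V_rr {k : ℕ} {u : Sq} (hu : u ∉ fin) {x : Ca} (h : EE (rr k u) x) :
    (V x).1 = k ∧ F0 (V x).2 u := by
  have hx : x ∈ AA := mem_AA.2 ⟨k, u, hu, h⟩
  exact rr_EE.1 ((V_spec hx).2.trans h.symm)

/-- the class map -/
noncomputable def aV (p : ℕ × Sq) : Sq := if p.1 = 0 then p.2 else jj (rr (p.1 - 1) p.2)

noncomputable def aa (x : Ca) : Sq := if x ∈ AA then aV (V x) else jj x

noncomputable def bb (u : Sq) : Ca :=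
  if u ∈ fin then (if xx u ∈ AA then rr ((V (xx u)).1 + 1) (V (xx u)).2 else xx u) else rr 0 u

theorem aa_eq {x y : Ca} (h : EE x y) : FF (aa x) (aa y) := by
  by_cases hx : x ∈ AA
  · have hy := AA_sat h hx
    rw [aa, aa, if_pos hx, if_pos hy]
    obtain ⟨h1, h2⟩ := V_spec hx
    obtain ⟨h3, h4⟩ := V_rr h1 (h2.trans h)
    unfold aV
    rw [h3]
    split_ifs with h5
    · exact Or.inl h4.symm
    · exact L1.2 (rr_EE.2 ⟨rfl, h4.symm⟩)
  · have hy : y ∉ AA := fun hy => hx (AA_sat h.symm hy)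
    rw [aa, aa, if_neg hx, if_neg hy]
    exact L1.2 h

theorem aa_out {x y : Ca} (hx : x ∉ AA) (hy : y ∈ AA) (h : FF (aa x) (aa y)) : False := by
  rw [aa, aa, if_neg hx, if_pos hy] at h
  obtain ⟨h1, h2⟩ := V_spec hy
  unfold aV at h
  split_ifs at h with h3
  · exact h1 (L2 h (jj_fin x))
  · have h4 := L1.1 h
    exact hx (mem_AA.2 ⟨_, _, h1, h4.symm⟩)

theorem aa_inv {x y : Ca} (h : FF (aa x) (aa y)) : EE x y := by
  by_cases hx : x ∈ AA
  · by_cases hy : y ∈ AA
    · rw [aa, aa, if_pos hx, if_pos hy] at h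
      obtain ⟨h1, h2⟩ := V_spec hx
      obtain ⟨h3, h4⟩ := V_spec hy
      refine h2.symm.trans (EE.trans ?_ h4)
      unfold aV at h
      by_cases h5 : (V x).1 = 0
      · by_cases h6 : (V y).1 = 0
        · rw [if_pos h5, if_pos h6] at h
          exact rr_EE.2 ⟨by rw [h5, h6], L3 h h1⟩
        · rw [if_pos h5, if_neg h6] at h
          exact absurd (L2 h.symm (jj_fin _)) h1
      · by_cases h6 : (V y).1 = 0
        · rw [if_neg h5, if_pos h6] at h
          exact absurd (L2 h (jj_fin _)) h3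
        · rw [if_neg h5, if_neg h6] at h
          obtain ⟨h7, h8⟩ := rr_EE.1 (L1.1 h)
          exact rr_EE.2 ⟨by omega, h8⟩
    · exact absurd (h.symm) (fun h' => aa_out hy hx h')
  · by_cases hy : y ∈ AA
    · exact absurd h (fun h' => aa_out hx hy h')
    · rw [aa, aa, if_neg hx, if_neg hy] at h
      exact L1.1 h

theorem aa_bb (u : Sq) : FF (aa (bb u)) u := by
  by_cases hu : u ∈ fin
  · have h0 : F0 u (jj (xx u)) := hu
    by_cases hx : xx u ∈ AA
    · obtain ⟨h1, h2⟩ := V_spec hx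
      have hb : bb u = rr ((V (xx u)).1 + 1) (V (xx u)).2 := by
        rw [bb, if_pos hu, if_pos hx]
      rw [hb]
      have h3 : rr ((V (xx u)).1 + 1) (V (xx u)).2 ∈ AA := mem_AA.2 ⟨_, _, h1, EE.refl _⟩
      obtain ⟨h4, h5⟩ := V_rr h1 (EE.refl (rr ((V (xx u)).1 + 1) (V (xx u)).2))
      rw [aa, if_pos h3]
      unfold aV
      rw [h4, if_neg (by omega)]
      have h6 : FF (jj (rr ((V (xx u)).1 + 1 - 1) (V (rr ((V (xx u)).1 + 1) (V (xx u)).2)).2))
          (jj (xx u)) := by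
        rw [L1]
        refine EE.trans ?_ h2
        exact rr_EE.2 ⟨by omega, h5⟩
      exact h6.trans (Or.inl h0.symm)
    · have hb : bb u = xx u := by
        rw [bb, if_pos hu, if_neg hx]
      rw [hb, aa, if_neg hx]
      exact Or.inl h0.symm
  · have hb : bb u = rr 0 u := by rw [bb, if_neg hu]
    rw [hb]
    have h3 : rr 0 u ∈ AA := mem_AA.2 ⟨_, _, hu, EE.refl _⟩
    obtain ⟨h4, h5⟩ := V_rr hu (EE.refl (rr 0 u))
    rw [aa, if_pos h3]
    unfold aV
    rw [h4, if_pos rfl]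
    exact Or.inl h5

theorem meas_aV : Measurable aV := by
  apply measurable_from_prod_countable_right
  intro k
  by_cases hk : k = 0
  · subst hk
    have : (fun y => aV (0, y)) = fun y => y := by
      funext y; simp [aV]
    rw [this]
    exact measurable_id
  · have : (fun y => aV (k, y)) = fun y => jj (rr (k - 1) y) := by
      funext y; simp [aV, hk]
    rw [this]
    exact meas_jj.comp (meas_rr _)

theorem meas_aa : Measurable aa := Measurable.ite ms_AA (meas_aV.comp meas_V) meas_jj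

theorem meas_bb : Measurable bb := by
  refine Measurable.ite ms_fin ?_ (meas_rr 0)
  refine Measurable.ite (meas_xx ms_AA) ?_ meas_xx
  have h1 : Measurable (fun p : ℕ × Sq => rr (p.1 + 1) p.2) :=
    measurable_from_prod_countable_right fun k => meas_rr (k + 1)
  exact h1.comp (meas_V.comp meas_xx)

/-- labels on the sequence side -/
noncomputable def labY (n : ℕ) (u : Sq) : Sq := fun i =>
  if i = 0 then lbl (S u 1) (Nat.pair n (u 0)) else u i

theorem labY_F0 (n : ℕ) (u : Sq) : F0 (labY n u) u := by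
  refine ⟨1, fun i hi => ?_, ?_⟩
  · show (if i = 0 then lbl (S u 1) (Nat.pair n (u 0)) else u i) = u i
    rw [if_neg (by omega)]
  · exact S_lbl (n := 0) (q := S u 1) (j := Nat.pair n (u 0)) (by
      show (if 0 = 0 then lbl (S u 1) (Nat.pair n (u 0)) else u 0) = _
      rw [if_pos rfl])

theorem labY_inj {n n' : ℕ} {u u' : Sq} (h : labY n u = labY n' u') : n = n' ∧ u = u' := by
  have h0 : lbl (S u 1) (Nat.pair n (u 0)) = lbl (S u' 1) (Nat.pair n' (u' 0)) := congrFun h 0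
  obtain ⟨-, h1⟩ := lbl_inj h0
  obtain ⟨h2, h3⟩ := Nat.pair_eq_pair.1 h1
  refine ⟨h2, ?_⟩
  funext i
  by_cases hi : i = 0
  · rw [hi]; exact h3
  · have := congrFun h i
    simpa [labY, hi] using this

theorem meas_labY (n : ℕ) : Measurable (labY n) := by
  refine measurable_pi_lambda _ fun i => ?_
  refine meas_pre _ (i + 1) ?_
  intro a b hab
  have h0 : a 0 = b 0 := hab 0 (by omega)
  have h1 : S a 1 = S b 1 := S_pre (n := 1) (fun j hj => hab j (by omega))
  show (if i = 0 then lbl (S a 1) (Nat.pair n (a 0)) else a i) =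
    (if i = 0 then lbl (S b 1) (Nat.pair n (b 0)) else b i)
  rw [h0, h1, hab i (by omega)]

theorem meas_lamC (n : ℕ) : Measurable (lamC n) := by
  refine measurable_pi_lambda _ fun i => ?_
  refine meas_pre _ (i + 1) ?_
  intro a b hab
  show (if i < n then false else if i = n then true else a (i - (n + 1))) =
    (if i < n then false else if i = n then true else b (i - (n + 1)))
  rw [hab _ (by omega)]

theorem e1_ex (x : Ca) : ∃ e, fe e (bb (aa x)) = x := by
  have h := aa_inv (aa_bb (aa x))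
  exact tle_iff_fe.1 h.2

noncomputable def n1 (x : Ca) : ℕ := Nat.find (e1_ex x)

theorem meas_n1 : Measurable n1 := by
  apply measurable_find
  intro e
  exact measurableSet_eq_fun ((meas_fe e).comp (meas_bb.comp meas_aa)) measurable_id

noncomputable def i1 (x : Ca) : Sq := labY (n1 x) (aa x)

theorem meas_i1 : Measurable i1 := by
  have h1 : Measurable (fun p : ℕ × Sq => labY p.1 p.2) :=
    measurable_from_prod_countable_right fun k => meas_labY k
  exact h1.comp (meas_n1.prodMk meas_aa)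

theorem i1_inj : Function.Injective i1 := by
  intro x y h
  obtain ⟨h1, h2⟩ := labY_inj h
  have h3 := Nat.find_spec (e1_ex x)
  have h4 := Nat.find_spec (e1_ex y)
  have h1' : Nat.find (e1_ex x) = Nat.find (e1_ex y) := h1
  rw [← h3, ← h4, h1', h2]

theorem i1_FF (x : Ca) : FF (aa x) (i1 x) := Or.inl (labY_F0 _ _).symm

theorem main : ∃ (G : Type) (_ : Group G) (_ : Countable G) (_ : MulAction G Sq),
    (∀ g : G, Continuous (fun y : Sq => g • y)) ∧
    ∃ Φ : Ca ≃ᵐ Sq, (∀ x y : Ca, (tle y x ∧ tle x y) ↔ ∃ g : G, g • Φ x = Φ y) ∧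
      ∀ x, tle zz x → ∃ x1, tle x x1 ∧ tle x1 x ∧ F0 (Φ x) (jj x1) := by
  obtain ⟨G, i1', i2', i3', hc, hor⟩ := sys.group
  refine ⟨G, i1', i2', i3', hc, ?_⟩
  obtain ⟨gs, hgs⟩ := exists_surjective_nat G
  have m_ex : ∀ u, ∃ m, gs m • aa (bb u) = u := by
    intro u
    obtain ⟨g, hg⟩ := (hor _ _).2 (aa_bb u)
    obtain ⟨m, rfl⟩ := hgs g
    exact ⟨m, hg⟩
  let mm : Sq → ℕ := fun u => Nat.find (m_ex u)
  have meas_mm : Measurable mm := by
    apply measurable_find
    intro m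
    exact measurableSet_eq_fun ((hc (gs m)).measurable.comp (meas_aa.comp meas_bb)) measurable_id
  let i2 : Sq → Ca := fun u => lamC (mm u) (bb u)
  have meas_i2 : Measurable i2 := by
    have h1 : Measurable (fun p : ℕ × Ca => lamC p.1 p.2) :=
      measurable_from_prod_countable_right fun k => meas_lamC k
    exact h1.comp (meas_mm.prodMk meas_bb)
  have i2_inj : Function.Injective i2 := by
    intro u v h
    obtain ⟨h1, h2⟩ := lamC_inj h
    have h3 := Nat.find_spec (m_ex u)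
    have h4 := Nat.find_spec (m_ex v)
    have h1' : Nat.find (m_ex u) = Nat.find (m_ex v) := h1
    rw [← h3, ← h4, h1', h2]
  have i2_FF : ∀ u, FF (aa (i2 u)) u := by
    intro u
    have h1 : EE (i2 u) (bb u) := ⟨lamC_tle _ _, tle_lamC _ _⟩
    exact (aa_eq h1).trans (aa_bb u)
  obtain ⟨Φ, hΦ⟩ := csb meas_i1 i1_inj meas_i2 i2_inj
  have key : ∀ x, FF (aa x) (Φ x) := by
    intro x
    rcases hΦ x with h | h
    · rw [h]; exact i1_FF x
    · have := i2_FF (Φ x)
      rwa [h] at this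
  refine ⟨Φ, ?_, ?_⟩
  · intro x y
    rw [hor]
    constructor
    · rintro ⟨h1, h2⟩
      have h3 : FF (aa x) (aa y) := aa_eq ⟨h2, h1⟩
      exact (key x).symm.trans (h3.trans (key y))
    · intro h
      have h3 : EE x y := aa_inv ((key x).trans (FF.trans h (key y).symm))
      exact ⟨h3.2, h3.1⟩
  · intro x hx
    have hxA : x ∉ AA := by
      intro h
      obtain ⟨k, u, -, h2⟩ := mem_AA.1 h
      exact rr_zz k u (tle_trans hx h2.2)
    have h1 := key x
    rw [aa, if_neg hxA] at h1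
    rcases FF_iff.1 h1 with h2 | ⟨x', y', h2, h3, h4⟩
    · exact ⟨x, tle_refl x, tle_refl x, h2.symm⟩
    · have h5 := jj_F0 h2
      subst h5
      exact ⟨y', h4.1, h4.2, h3⟩

end Pool.Agent.H84R6
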