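import Mathlib

set_option autoImplicit false

namespace Pool.Agent.H84R6

abbrev Sq := ℕ → ℕ

/-- agreement below `n` -/
def agr (n : ℕ) (u v : Sq) : Prop := ∀ i < n, u i = v i

theorem agr.symm {n : ℕ} {u v : Sq} (h : agr n u v) : agr n v u := fun i hi => (h i hi).symm
theorem agr.trans {n : ℕ} {u v w : Sq} (h : agr n u v) (h' : agr n v w) : agr n u w :=
  fun i hi => (h i hi).trans (h' i hi)
theorem agr.mono {m n : ℕ} {u v : Sq} (h : agr n u v) (hm : m ≤ n) : agr m u v :=
  fun i hi => h i (lt_of_lt_of_le hi hm)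
theorem agr.refl (n : ℕ) (u : Sq) : agr n u u := fun _ _ => rfl

def pre (u : Sq) (n : ℕ) : List ℕ := (List.range n).map u

@[simp] theorem length_pre (u : Sq) (n : ℕ) : (pre u n).length = n := by simp [pre]

theorem getElem_pre (u : Sq) (n i : ℕ) (h : i < (pre u n).length) : (pre u n)[i] = u i := by
  simp [pre]

theorem pre_succ (u : Sq) (n : ℕ) : pre u (n + 1) = pre u n ++ [u n] := by
  simp [pre, List.range_succ]

theorem pre_eq_iff {u v : Sq} {n : ℕ} : pre u n = pre v n ↔ agr n u v := by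
  constructor
  · intro h i hi
    have h1 := getElem_pre u n i (by simpa using hi)
    have h2 := getElem_pre v n i (by simpa using hi)
    rw [← h1, ← h2]
    simp [h]
  · intro h
    apply List.map_congr_left
    intro i hi
    exact h i (List.mem_range.1 hi)

theorem eq_of_agr {u v : Sq} (h : ∀ n, agr n u v) : u = v := by
  funext i; exact h (i + 1) i (Nat.lt_succ_self i)

/-! topology -/

theorem isOpen_iff_agr {U : Set Sq} : IsOpen U ↔ ∀ u ∈ U, ∃ n, ∀ v, agr n u v → v ∈ U := by
  constructor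
  · intro hU u hu
    obtain ⟨I, f, hf, hsub⟩ := isOpen_pi_iff.1 hU u hu
    refine ⟨I.sup id + 1, fun v hv => hsub ?_⟩
    intro i hi
    have : v i = u i := (hv i (Nat.lt_succ_of_le (Finset.le_sup (f := id) hi))).symm
    rw [this]
    exact (hf i hi).2
  · intro h
    rw [isOpen_iff_mem_nhds]
    intro u hu
    obtain ⟨n, hn⟩ := h u hu
    have h2 : {v : Sq | ∀ i ∈ Finset.range n, v i = u i} ∈ nhds u := by
      have : {v : Sq | ∀ i ∈ Finset.range n, v i = u i} = ⋂ i ∈ Finset.range n, {v : Sq | v i = u i} := by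
        ext v; simp
      rw [this]
      refine (Filter.biInter_finset_mem _).2 fun i _ => ?_
      have hO : IsOpen ((fun v : Sq => v i) ⁻¹' {u i}) :=
        (isOpen_discrete {u i}).preimage (continuous_apply i)
      exact hO.mem_nhds rfl
    refine Filter.mem_of_superset h2 ?_
    intro v hv
    exact hn v fun i hi => (hv i (Finset.mem_range.2 hi)).symm

theorem isClosed_iff_agr {C : Set Sq} : IsClosed C ↔ ∀ u, u ∉ C → ∃ n, ∀ v, agr n u v → v ∉ C := by
  rw [← isOpen_compl_iff, isOpen_iff_agr]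
  rfl

theorem continuous_iff_agr {f : Sq → Sq} :
    Continuous f ↔ ∀ u N, ∃ n, ∀ v, agr n u v → agr N (f u) (f v) := by
  constructor
  · intro hf u N
    have hO : IsOpen {w : Sq | agr N (f u) w} := by
      rw [isOpen_iff_agr]
      intro w hw
      exact ⟨N, fun v hv => hw.trans hv⟩
    obtain ⟨n, hn⟩ := isOpen_iff_agr.1 (hO.preimage hf) u (agr.refl _ _)
    exact ⟨n, hn⟩
  · intro h
    rw [continuous_def]
    intro U hU
    rw [isOpen_iff_agr]
    intro u hu
    obtain ⟨N, hN⟩ := isOpen_iff_agr.1 hU (f u) hu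
    obtain ⟨n, hn⟩ := h u N
    exact ⟨n, fun v hv => hN _ (hn v hv)⟩

/-! parsing -/

/-- state after `n` symbols: odd symbols are appended to the virtual prefix, an even symbol
names the new virtual prefix -/
def S (u : Sq) : ℕ → List ℕ
  | 0 => []
  | n + 1 => if u n % 2 = 1 then S u n ++ [u n] else
      (Encodable.decode (α := List ℕ) ((u n - 2) / 2).unpair.1).getD []

/-- the symbol naming the state `q` with the junk `j` -/
def lbl (q : List ℕ) (j : ℕ) : ℕ := 2 * Nat.pair (Encodable.encode q) j + 2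

theorem S_lbl {u : Sq} {n : ℕ} {q : List ℕ} {j : ℕ} (h : u n = lbl q j) : S u (n + 1) = q := by
  rw [S, h, lbl, if_neg (by omega)]
  have : (2 * Nat.pair (Encodable.encode q) j + 2 - 2) / 2 = Nat.pair (Encodable.encode q) j := by
    omega
  rw [this]
  simp

theorem lbl_inj {q q' : List ℕ} {j j' : ℕ} (h : lbl q j = lbl q' j') : q = q' ∧ j = j' := by
  have h1 : Nat.pair (Encodable.encode q) j = Nat.pair (Encodable.encode q') j' := by
    unfold lbl at h; omega
  obtain ⟨h2, h3⟩ := Nat.pair_eq_pair.1 h1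
  exact ⟨Encodable.encode_injective h2, h3⟩

theorem lt_lbl (q : List ℕ) (j : ℕ) : j < lbl q j := by
  have := Nat.right_le_pair (Encodable.encode q) j
  unfold lbl; omega

theorem lbl_even (q : List ℕ) (j : ℕ) : lbl q j % 2 = 0 := by unfold lbl; omega

theorem S_congr {u v : Sq} {n : ℕ} (h : agr n u v) : S u n = S v n := by
  induction n with
  | zero => rfl
  | succ n ih =>
    rw [S, S, ih (h.mono (Nat.le_succ n)), h n (Nat.lt_succ_self n)]

/-- all symbols odd -/
def Odd' (u : Sq) : Prop := ∀ i, u i % 2 = 1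

theorem S_odd {u : Sq} (h : Odd' u) (n : ℕ) : S u n = pre u n := by
  induction n with
  | zero => rfl
  | succ n ih => rw [S, if_pos (h n), ih, pre_succ]

/-- same tail and same state -/
def F0 (u v : Sq) : Prop := ∃ n, (∀ i, n ≤ i → u i = v i) ∧ S u n = S v n

theorem S_shift {u v : Sq} {n : ℕ} (h : ∀ i, n ≤ i → u i = v i)
    (hs : S u n = S v n) {m : ℕ} (hm : n ≤ m) : S u m = S v m := by
  induction m, hm using Nat.le_induction with
  | base => exact hs
  | succ k hk ih => rw [S, S, ih, h k hk]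

theorem F0.refl (u : Sq) : F0 u u := ⟨0, fun _ _ => rfl, rfl⟩

theorem F0.symm {u v : Sq} (h : F0 u v) : F0 v u := by
  obtain ⟨n, h1, h2⟩ := h
  exact ⟨n, fun i hi => (h1 i hi).symm, h2.symm⟩

theorem F0.trans {u v w : Sq} (h : F0 u v) (h' : F0 v w) : F0 u w := by
  obtain ⟨m, h1, h2⟩ := h
  obtain ⟨n, h3, h4⟩ := h'
  refine ⟨max m n, fun i hi => (h1 i (le_trans (le_max_left _ _) hi)).trans
    (h3 i (le_trans (le_max_right _ _) hi)), ?_⟩
  rw [S_shift h1 h2 (le_max_left _ _), S_shift h3 h4 (le_max_right _ _)]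

theorem F0_odd {u v : Sq} (hu : Odd' u) (hv : Odd' v) (h : F0 u v) : u = v := by
  obtain ⟨n, h1, h2⟩ := h
  rw [S_odd hu, S_odd hv] at h2
  have h3 := pre_eq_iff.1 h2
  funext i
  rcases lt_or_ge i n with h | h
  · exact h3 i h
  · exact h1 i h

end Pool.Agent.H84R6
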