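import Pool.Agent.H84R6.Eval

set_option autoImplicit false

namespace Pool.Agent.H84R6

open Encodable
open Pool.Agent.Helper760.OracleNF (Mon)

/-! ### composition -/

/-- the known part of the `c`-th functional, step `j` -/
def LL (σ : List ℕ) (c : ℕ) : ℕ → List ℕ
  | 0 => []
  | j + 1 => LL σ c j ++ (GG σ c (LL σ c j).length).toList

theorem LL_some {σ : List ℕ} {c j v : ℕ} (h : GG σ c (LL σ c j).length = some v) :
    LL σ c (j + 1) = LL σ c j ++ [v] := by
  rw [LL, h]; rfl

theorem LL_none {σ : List ℕ} {c j : ℕ} (h : GG σ c (LL σ c j).length = none) :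
    LL σ c (j + 1) = LL σ c j := by
  rw [LL, h]; simp

theorem LL_le {σ : List ℕ} {c j j' : ℕ} (h : j ≤ j') : LL σ c j <+: LL σ c j' := by
  induction j', h using Nat.le_induction with
  | base => exact List.prefix_rfl
  | succ k _ ih => exact ih.trans (by rw [LL]; exact List.prefix_append _ _)

theorem LL_pre {σ τ : List ℕ} {c : ℕ} (h : σ <+: τ) (j : ℕ) :
    LL σ c j = LL τ c j ∨ (GG σ c (LL σ c j).length = none ∧ LL σ c j <+: LL τ c j) := by
  induction j with
  | zero => left; rfl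
  | succ j ih =>
    rcases ih with ih | ⟨h1, h2⟩
    · cases hv : GG σ c (LL σ c j).length with
      | none =>
        right
        rw [LL_none hv]
        refine ⟨hv, ?_⟩
        rw [ih]
        exact LL_le (Nat.le_succ j)
      | some v =>
        left
        rw [LL_some hv, LL_some (v := v), ih]
        rw [← ih]
        exact GG_mon h hv
    · right
      rw [LL_none h1]
      exact ⟨h1, h2.trans (LL_le (Nat.le_succ j))⟩

theorem LL_mon {σ τ : List ℕ} {c : ℕ} (h : σ <+: τ) :
    LL σ c σ.length <+: LL τ c τ.length := by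
  have h1 : LL σ c σ.length <+: LL τ c σ.length := by
    rcases LL_pre (c := c) h σ.length with h1 | ⟨-, h1⟩
    · rw [h1]
    · exact h1
  exact h1.trans (LL_le h.length_le)

theorem primrec_toList : Primrec (fun o : Option ℕ => o.toList) := by
  have : Primrec (fun o : Option ℕ => (Option.casesOn o [] (fun a => [a]) : List ℕ)) :=
    Primrec.option_casesOn Primrec.id (Primrec.const [])
      (Primrec.list_cons.comp Primrec.snd (Primrec.const []))
  refine this.of_eq ?_
  intro o
  cases o <;> rfl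

def LLs (σ : List ℕ) (c : ℕ) (L : List ℕ) : List ℕ := L ++ (GG σ c L.length).toList

theorem primrec_LLs (c : ℕ) : Primrec₂ (fun (z : List ℕ × ℕ) (w : ℕ × List ℕ) => LLs z.1 c w.2) := by
  unfold LLs
  have h1 : Primrec (fun p : (List ℕ × ℕ) × (ℕ × List ℕ) => p.2.2) :=
    Primrec.snd.comp Primrec.snd
  have h2 : Primrec (fun p : (List ℕ × ℕ) × (ℕ × List ℕ) => GG p.1.1 c p.2.2.length) :=
    primrec_GG.comp (Primrec.pair (Primrec.fst.comp Primrec.fst)
      (Primrec.pair (Primrec.const c) (Primrec.list_length.comp h1)))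
  exact Primrec.list_append.comp h1 (primrec_toList.comp h2)

theorem primrec_LL (c : ℕ) : Primrec₂ (fun (σ : List ℕ) (j : ℕ) => LL σ c j) := by
  have h := Primrec.nat_rec' (f := fun z : List ℕ × ℕ => z.2) (g := fun _ => ([] : List ℕ))
    Primrec.snd (Primrec.const []) (primrec_LLs c)
  refine Primrec.of_eq h ?_
  rintro ⟨σ, j⟩
  induction j with
  | zero => rfl
  | succ j ih => exact congrArg (LLs σ c) ih

theorem LL_val {c : ℕ} {g y : Sq} (hy : ∀ n, ph c g n (y n)) (k j : ℕ) :
    ∃ m, LL (pre g k) c j = pre y m := by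
  induction j with
  | zero => exact ⟨0, rfl⟩
  | succ j ih =>
    obtain ⟨m, hm⟩ := ih
    cases hv : GG (pre g k) c (LL (pre g k) c j).length with
    | none => exact ⟨m, by rw [LL_none hv, hm]⟩
    | some v =>
      refine ⟨m + 1, ?_⟩
      rw [LL_some hv, hm, pre_succ]
      rw [hm, length_pre] at hv
      rw [ph_unique (hy m) ⟨k, hv⟩]

theorem LL_reach {c : ℕ} {g y : Sq} (hy : ∀ n, ph c g n (y n)) (m : ℕ) :
    ∃ k, pre y m <+: LL (pre g k) c k := by
  have h1 : ∃ K, ∀ j < m, ∃ v, GG (pre g K) c j = some v := by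
    apply Pool.Agent.Helper760.OracleNF.exists_unif m
      (fun j k => ∃ v, GG (pre g k) c j = some v)
    · rintro j k k' hk ⟨v, hv⟩
      exact ⟨v, GG_mon (pre_pre g hk) hv⟩
    · intro j _
      obtain ⟨k, hk⟩ := hy j
      exact ⟨k, _, hk⟩
  obtain ⟨K, hK⟩ := h1
  have h2 : ∀ j ≤ m, LL (pre g (max K m)) c j = pre y j := by
    intro j
    induction j with
    | zero => intro _; rfl
    | succ j ih =>
      intro hj
      have ih' := ih (by omega)
      obtain ⟨v, hv⟩ := hK j (by omega)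
      have hv' := GG_mon (pre_pre g (le_max_left K m)) hv
      have hv2 : GG (pre g (max K m)) c (LL (pre g (max K m)) c j).length = some v := by
        rw [ih', length_pre]; exact hv'
      rw [LL_some hv2, ih', pre_succ, ph_unique (hy j) ⟨_, hv'⟩]
  refine ⟨max K m, ?_⟩
  rw [← h2 m le_rfl]
  exact LL_le (le_max_right K m)

/-- uniform composition -/
theorem comp (c c' : ℕ) : ∃ c'', ∀ g y : Sq, (∀ n, ph c g n (y n)) →
    ∀ n v, ph c'' g n v ↔ ph c' y n v := by
  obtain ⟨c'', h⟩ := univ (F := fun σ n => GG (LL σ c σ.length) c' n) (by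
    refine primrec_GG.comp (Primrec.pair ?_ (Primrec.pair (Primrec.const c') Primrec.snd))
    exact (primrec_LL c).comp Primrec.fst (Primrec.list_length.comp Primrec.fst)) (by
    intro σ τ n m hst hm
    exact GG_mon (LL_mon hst) hm)
  refine ⟨c'', fun g y hy n v => ?_⟩
  rw [h]
  constructor
  · rintro ⟨k, hk⟩
    obtain ⟨m, hm⟩ := LL_val hy k (pre g k).length
    rw [hm] at hk
    exact ⟨m, hk⟩
  · rintro ⟨m, hm⟩
    obtain ⟨k, hk⟩ := LL_reach hy m
    refine ⟨k, ?_⟩
    rw [length_pre]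
    exact GG_mon hk hm

theorem idcode : ∃ c, ∀ g : Sq, ∀ n v, ph c g n v ↔ g n = v := by
  obtain ⟨c, h⟩ := univ (F := fun σ n => σ[n]?) Primrec.list_getElem?
    (fun σ τ n m hst hm => Pool.Agent.Helper760.OracleNF.getElem?_ext hst hm)
  refine ⟨c, fun g n v => ?_⟩
  rw [h]
  constructor
  · rintro ⟨k, hk⟩
    exact ((Pool.Agent.Helper760.OracleNF.getElem?_pre g n k v).1 hk).2
  · intro hv
    exact ⟨n + 1, (Pool.Agent.Helper760.OracleNF.getElem?_pre g n (n + 1) v).2 ⟨by omega, hv⟩⟩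

/-! ### relation to `RecursiveIn` -/

theorem code_of_rec {g : Sq} {f : ℕ →. ℕ} (hf : RecursiveIn {(g : ℕ →. ℕ)} f) :
    ∃ c, ∀ n m, m ∈ f n ↔ ph c g n m := by
  rw [RecursiveIn.iff_nat] at hf
  obtain ⟨F, h1, h2, h3⟩ := Pool.Agent.Helper760.OracleNF.normal_form g f hf
  obtain ⟨c, hc⟩ := univ h1 h2
  refine ⟨c, fun n m => ?_⟩
  rw [h3, hc]
  rfl

/-- the `c`-th partial function -/
noncomputable def phf (c : ℕ) (g : Sq) : ℕ →. ℕ := fun n => Nat.rfindOpt (fun k => GG (pre g k) c n)

theorem mem_phf {c : ℕ} {g : Sq} {n m : ℕ} : m ∈ phf c g n ↔ ph c g n m := by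
  unfold phf
  rw [Nat.rfindOpt_mono]
  · rfl
  · intro a k k' hk h
    exact GG_mon (pre_pre g hk) h

theorem rec_phf (c : ℕ) (g : Sq) : RecursiveIn {(g : ℕ →. ℕ)} (phf c g) := by
  have h := Pool.Agent.Helper760.OracleNF.recIn_of_stepped g (α := ℕ) (σ := ℕ)
    (F := fun σ n => GG σ c n)
    (primrec_GG.comp (Primrec.pair Primrec.fst (Primrec.pair (Primrec.const c) Primrec.snd)))
  exact h

/-- the universal partial function -/
theorem rec_univ (g : Sq) :
    RecursiveIn {(g : ℕ →. ℕ)} (fun a : ℕ => phf a.unpair.1 g a.unpair.2) := by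
  have h := Pool.Agent.Helper760.OracleNF.recIn_of_stepped g (α := ℕ) (σ := ℕ)
    (F := fun σ a => GG σ a.unpair.1 a.unpair.2)
    (primrec_GG.comp (Primrec.pair Primrec.fst (Primrec.unpair.comp Primrec.snd)))
  exact h

theorem rec_tot_iff {g y : Sq} : RecursiveIn {(g : ℕ →. ℕ)} (y : ℕ →. ℕ) ↔
    ∃ c, ∀ n, ph c g n (y n) := by
  constructor
  · intro h
    obtain ⟨c, hc⟩ := code_of_rec h
    exact ⟨c, fun n => (hc n (y n)).1 (Part.mem_some _)⟩
  · rintro ⟨c, hc⟩
    refine (rec_phf c g).of_eq ?_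
    intro n
    exact (Part.eq_some_iff.2 (mem_phf.2 (hc n)))

end Pool.Agent.H84R6
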