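import Mathlib

set_option autoImplicit false

namespace Pool.Agent.H84R6

open Set Function

theorem csb {α β : Type} [MeasurableSpace α] [StandardBorelSpace α] [MeasurableSpace β]
    [StandardBorelSpace β] {f : α → β} {g : β → α} (hf' : Measurable f) (hfi : Injective f)
    (hg' : Measurable g) (hgi : Injective g) : ∃ Φ : α ≃ᵐ β, ∀ x, Φ x = f x ∨ g (Φ x) = x := by
  classical
  have hf := hf'.measurableEmbedding hfi
  have hg := hg'.measurableEmbedding hgi
  let F : Set α → Set α := fun A => (g '' (f '' A)ᶜ)ᶜ
  obtain ⟨A, Am, Afp⟩ : ∃ A : Set α, MeasurableSet A ∧ F A = A := by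
    have Fmono : ∀ {A B}, A ⊆ B → F A ⊆ F B := fun h =>
      compl_subset_compl.mpr <| Set.image_mono <| compl_subset_compl.mpr <| Set.image_mono h
    let X : ℕ → Set α := fun n => F^[n] univ
    refine ⟨iInter X, ?_, ?_⟩
    · refine MeasurableSet.iInter fun n ↦ ?_
      induction n with
      | zero => exact MeasurableSet.univ
      | succ n ih =>
        show MeasurableSet (F^[n + 1] univ)
        rw [Function.iterate_succ', Function.comp_apply]
        exact (hg.measurableSet_image' (hf.measurableSet_image' ih).compl).compl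
    apply subset_antisymm
    · apply subset_iInter
      intro n
      cases n
      · exact subset_univ _
      show F (iInter X) ⊆ F^[_ + 1] univ
      rw [Function.iterate_succ', Function.comp_apply]
      exact Fmono (iInter_subset _ _)
    rintro x hx ⟨y, hy, rfl⟩
    rw [mem_iInter] at hx
    apply hy
    rw [hf.injective.injOn.image_iInter_eq]
    rw [mem_iInter]
    intro n
    have hx' : g y ∈ F^[n + 1] univ := hx n.succ
    rw [Function.iterate_succ', Function.comp_apply] at hx'
    by_contra h
    apply hx'
    exact ⟨y, h, rfl⟩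
  have hc : ∀ x, x ∉ A → ∃ y, y ∉ f '' A ∧ g y = x := by
    intro x hx
    rw [← Afp] at hx
    by_contra hcc
    apply hx
    rintro ⟨y, hy, hyx⟩
    exact hcc ⟨y, hy, hyx⟩
  have hc' : ∀ y, y ∉ f '' A → g y ∉ A := by
    intro y hy h
    rw [← Afp] at h
    exact h ⟨y, hy, rfl⟩
  let ph : α → β := fun x => if h : x ∉ A then (hc x h).choose else f x
  have p1 : ∀ x, x ∈ A → ph x = f x := by
    intro x hx
    show (if h : x ∉ A then (hc x h).choose else f x) = f x
    rw [dif_neg (not_not.2 hx)]
  have p2 : ∀ x, x ∉ A → ph x ∉ f '' A ∧ g (ph x) = x := by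
    intro x hx
    show (if h : x ∉ A then (hc x h).choose else f x) ∉ f '' A ∧
      g (if h : x ∉ A then (hc x h).choose else f x) = x
    rw [dif_pos hx]
    exact (hc x hx).choose_spec
  have pinj : Injective ph := by
    intro x y h
    by_cases hx : x ∈ A
    · by_cases hy : y ∈ A
      · rw [p1 x hx, p1 y hy] at h
        exact hfi h
      · have := (p2 y hy).1
        rw [← h, p1 x hx] at this
        exact absurd ⟨x, hx, rfl⟩ this
    · by_cases hy : y ∈ A
      · have := (p2 x hx).1
        rw [h, p1 y hy] at this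
        exact absurd ⟨y, hy, rfl⟩ this
      · rw [← (p2 x hx).2, ← (p2 y hy).2, h]
  have psurj : Surjective ph := by
    intro y
    by_cases hy : y ∈ f '' A
    · obtain ⟨x, hx, rfl⟩ := hy
      exact ⟨x, p1 x hx⟩
    · exact ⟨g y, hgi (p2 _ (hc' y hy)).2⟩
  have pmeas : Measurable ph := by
    intro s hs
    have h1 : ph ⁻¹' s = (A ∩ f ⁻¹' s) ∪ (Aᶜ ∩ g '' s) := by
      ext x
      constructor
      · intro hx
        by_cases h : x ∈ A
        · left
          refine ⟨h, ?_⟩
          rw [mem_preimage, ← p1 x h]
          exact hx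
        · right
          exact ⟨h, ph x, hx, (p2 x h).2⟩
      · rintro (⟨h, hx⟩ | ⟨h, y, hy, hyx⟩)
        · rw [mem_preimage, p1 x h]; exact hx
        · rw [mem_preimage]
          have : ph x = y := hgi ((p2 x h).2.trans hyx.symm)
          rw [this]; exact hy
    rw [h1]
    exact (Am.inter (hf' hs)).union (Am.compl.inter (hg.measurableSet_image' hs))
  have pemb := pmeas.measurableEmbedding pinj
  let e := Equiv.ofBijective ph ⟨pinj, psurj⟩
  refine ⟨⟨e, pmeas, ?_⟩, ?_⟩
  · intro s hs
    have : e.symm ⁻¹' s = ph '' s := (e.image_eq_preimage_symm s).symm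
    rw [this]
    exact pemb.measurableSet_image' hs
  · intro x
    show ph x = f x ∨ g (ph x) = x
    by_cases hx : x ∈ A
    · exact Or.inl (p1 x hx)
    · exact Or.inr (p2 x hx).2

end Pool.Agent.H84R6
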