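import Pool.Agent.H84R6.Jump

set_option autoImplicit false

namespace Pool.Agent.H84R6

open Encodable Classical

theorem tot_of_stepped {g y : Sq} {F : List ℕ → ℕ → Option ℕ} (hF : Primrec₂ F)
    (h1 : ∀ a k v, F (pre g k) a = some v → v = y a) (h2 : ∀ a, ∃ k v, F (pre g k) a = some v) :
    RecursiveIn {(g : ℕ →. ℕ)} (y : ℕ →. ℕ) := by
  have h := Pool.Agent.Helper760.OracleNF.recIn_of_stepped g (α := ℕ) (σ := ℕ) hF
  refine h.of_eq ?_
  intro a
  show Nat.rfindOpt (fun k => F (Pool.Agent.Helper760.OracleNF.pre g k) a) = Part.some (y a)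
  apply Part.eq_some_iff.2
  · have hd : (Nat.rfindOpt (fun k => F (Pool.Agent.Helper760.OracleNF.pre g k) a)).Dom := by
      rw [Nat.rfindOpt_dom]
      obtain ⟨k, v, hk⟩ := h2 a
      exact ⟨k, v, hk⟩
    obtain ⟨v, hv⟩ := Part.dom_iff_mem.1 hd
    obtain ⟨k, hk⟩ := Nat.rfindOpt_spec hv
    rw [← h1 a k v hk]
    exact hv

theorem fin_mod {u v : Sq} {n : ℕ} (h : ∀ i, n ≤ i → u i = v i) :
    RecursiveIn {(v : ℕ →. ℕ)} (u : ℕ →. ℕ) := by
  apply tot_of_stepped (F := fun σ i => ((pre u n)[i]?).orElse (fun _ => σ[i]?))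
  · refine Primrec.option_orElse.comp ?_ Primrec.list_getElem?
    exact Primrec.list_getElem?.comp (Primrec.const (pre u n)) Primrec.snd
  · intro a k w hw
    have hw' : ((pre u n)[a]?).orElse (fun _ => (pre v k)[a]?) = some w := hw
    by_cases ha : a < n
    · have h1 : (pre u n)[a]? = some (u a) :=
        (Pool.Agent.Helper760.OracleNF.getElem?_pre u a n (u a)).2 ⟨ha, rfl⟩
      rw [h1] at hw'
      exact (Option.some.inj hw').symm
    · have h1 : (pre u n)[a]? = none := List.getElem?_eq_none (by rw [length_pre]; omega)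
      rw [h1] at hw'
      have h2 : (pre v k)[a]? = some w := hw'
      rw [h a (by omega)]
      exact ((Pool.Agent.Helper760.OracleNF.getElem?_pre v a k w).1 h2).2.symm
  · intro a
    by_cases ha : a < n
    · refine ⟨0, u a, ?_⟩
      have h1 : (pre u n)[a]? = some (u a) :=
        (Pool.Agent.Helper760.OracleNF.getElem?_pre u a n (u a)).2 ⟨ha, rfl⟩
      show ((pre u n)[a]?).orElse (fun _ => (pre v 0)[a]?) = _
      rw [h1]; rfl
    · refine ⟨a + 1, v a, ?_⟩
      have h1 : (pre u n)[a]? = none := List.getElem?_eq_none (by rw [length_pre]; omega)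
      show ((pre u n)[a]?).orElse (fun _ => (pre v (a + 1))[a]?) = _
      rw [h1]
      exact (Pool.Agent.Helper760.OracleNF.getElem?_pre v a (a + 1) (v a)).2 ⟨by omega, rfl⟩

theorem rec_trans {f g h : Sq} (h1 : RecursiveIn {(g : ℕ →. ℕ)} (f : ℕ →. ℕ))
    (h2 : RecursiveIn {(h : ℕ →. ℕ)} (g : ℕ →. ℕ)) :
    RecursiveIn {(h : ℕ →. ℕ)} (f : ℕ →. ℕ) := TuringReducible.trans h1 h2

theorem rec_refl (f : Sq) : RecursiveIn {(f : ℕ →. ℕ)} (f : ℕ →. ℕ) :=
  RecursiveIn.oracle _ rfl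

/-- composition with a primitive recursive function on the right -/
theorem rec_comp_primrec {g y : Sq} (hg : RecursiveIn {(g : ℕ →. ℕ)} (y : ℕ →. ℕ)) {p : ℕ → ℕ}
    (hp : Primrec p) : RecursiveIn {(g : ℕ →. ℕ)} ((fun n => y (p n) : Sq) : ℕ →. ℕ) := by
  rw [RecursiveIn.iff_nat] at hg ⊢
  exact Pool.Agent.Helper760.OracleNF.recIn_comp g (f := y) (h := p) hg
    (Pool.Agent.Helper760.OracleNF.recIn_primrec g hp)

theorem rec_primrec_comp {g y : Sq} (hg : RecursiveIn {(g : ℕ →. ℕ)} (y : ℕ →. ℕ)) {p : ℕ → ℕ}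
    (hp : Primrec p) : RecursiveIn {(g : ℕ →. ℕ)} ((fun n => p (y n) : Sq) : ℕ →. ℕ) := by
  rw [RecursiveIn.iff_nat] at hg ⊢
  exact Pool.Agent.Helper760.OracleNF.recIn_comp g (f := p) (h := y)
    (Pool.Agent.Helper760.OracleNF.recIn_primrec g hp) hg

/-- Turing reducibility -/
def tle (y x : Ca) : Prop := ∃ e, P e x y

theorem tle_iff {x y : Ca} : RecursiveIn {PFun.lift (fun n => (x n).toNat)}
    (PFun.lift (fun n => (y n).toNat)) ↔ tle y x := rec_tot_iff (g := o x) (y := o y)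

theorem tle_iff' {x y : Ca} : RecursiveIn {(o x : ℕ →. ℕ)} (o y : ℕ →. ℕ) ↔ tle y x :=
  rec_tot_iff (g := o x) (y := o y)

theorem tle_refl (x : Ca) : tle x x := tle_iff'.1 (rec_refl _)

theorem tle_trans {x y z : Ca} (h1 : tle x y) (h2 : tle y z) : tle x z :=
  tle_iff'.1 (rec_trans (tle_iff'.2 h1) (tle_iff'.2 h2))

theorem E_iff {x y : Ca} : sys.E x y ↔ tle y x ∧ tle x y := by
  constructor
  · rintro ⟨e, i, h1, h2⟩; exact ⟨⟨e, h1⟩, ⟨i, h2⟩⟩
  · rintro ⟨⟨e, h1⟩, ⟨i, h2⟩⟩; exact ⟨e, i, h1, h2⟩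

/-- the labelled copy of a real -/
def lamC (n : ℕ) (x : Ca) : Ca := fun i => if i < n then false else if i = n then true else x (i - (n + 1))

theorem lamC_inj {n n' : ℕ} {x x' : Ca} (h : lamC n x = lamC n' x') : n = n' ∧ x = x' := by
  have h1 : n = n' := by
    rcases lt_trichotomy n n' with h2 | h2 | h2
    · have := congrFun h n
      simp [lamC, h2] at this
    · exact h2
    · have := congrFun h n'
      simp [lamC, h2] at this
  subst h1
  refine ⟨rfl, ?_⟩
  funext i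
  have := congrFun h (i + (n + 1))
  simp only [lamC] at this
  rw [if_neg (by omega), if_neg (by omega), if_neg (by omega), if_neg (by omega)] at this
  simpa using this

theorem lamC_tle (n : ℕ) (x : Ca) : tle (lamC n x) x := by
  apply tle_iff'.1
  have h1 : RecursiveIn {(o x : ℕ →. ℕ)} ((fun i => o x (i - (n + 1)) : Sq) : ℕ →. ℕ) :=
    rec_comp_primrec (rec_refl _) (Primrec.nat_sub.comp Primrec.id (Primrec.const (n + 1)))
  refine rec_trans (fin_mod (n := n + 1) ?_) h1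
  intro i hi
  show (lamC n x i).toNat = (x (i - (n + 1))).toNat
  rw [lamC, if_neg (by omega), if_neg (by omega)]

theorem tle_lamC (n : ℕ) (x : Ca) : tle x (lamC n x) := by
  apply tle_iff'.1
  have h1 : RecursiveIn {(o (lamC n x) : ℕ →. ℕ)}
      ((fun i => o (lamC n x) (i + (n + 1)) : Sq) : ℕ →. ℕ) :=
    rec_comp_primrec (rec_refl _) (Primrec.nat_add.comp Primrec.id (Primrec.const (n + 1)))
  have h2 : (fun i => o (lamC n x) (i + (n + 1)) : Sq) = o x := by
    funext i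
    show (lamC n x (i + (n + 1))).toNat = (x i).toNat
    rw [lamC, if_neg (by omega), if_neg (by omega)]
    simp
  rw [h2] at h1
  exact h1

/-! ### the jump -/

def KK (x : Ca) : Set ℕ := {a | ∃ v, ph a.unpair.1 (o x) a.unpair.2 v}

noncomputable def ind (A : Set ℕ) : Sq := A.indicator (fun _ => (1 : ℕ))

theorem ind_one {A : Set ℕ} {n : ℕ} (h : n ∈ A) : ind A n = 1 := by simp [ind, h]
theorem ind_zero {A : Set ℕ} {n : ℕ} (h : n ∉ A) : ind A n = 0 := by simp [ind, h]

theorem ind_congr {A B : Set ℕ} {n m : ℕ} (h : n ∈ A ↔ m ∈ B) : ind A n = ind B m := by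
  by_cases h1 : n ∈ A
  · rw [ind_one h1, ind_one (h.1 h1)]
  · rw [ind_zero h1, ind_zero (fun h2 => h1 (h.2 h2))]

theorem KK_re (x : Ca) : ∃ f : ℕ →. ℕ, RecursiveIn {(o x : ℕ →. ℕ)} f ∧
    ∀ n, n ∈ KK x ↔ (f n).Dom := by
  refine ⟨_, rec_univ (o x), fun n => ?_⟩
  rw [Part.dom_iff_mem]
  constructor
  · rintro ⟨v, hv⟩; exact ⟨v, mem_phf.2 hv⟩
  · rintro ⟨v, hv⟩; exact ⟨v, mem_phf.1 hv⟩

theorem KK_complete (x : Ca) (B : Set ℕ) (hB : ∃ f : ℕ →. ℕ, RecursiveIn {(o x : ℕ →. ℕ)} f ∧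
    ∀ n, n ∈ B ↔ (f n).Dom) : RecursiveIn {(ind (KK x) : ℕ →. ℕ)} (ind B : ℕ →. ℕ) := by
  obtain ⟨f, h1, h2⟩ := hB
  obtain ⟨c, hc⟩ := code_of_rec h1
  have h3 : ind B = fun n => ind (KK x) (Nat.pair c n) := by
    funext n
    apply ind_congr
    rw [h2, Part.dom_iff_mem]
    show _ ↔ ∃ v, ph (Nat.pair c n).unpair.1 (o x) (Nat.pair c n).unpair.2 v
    rw [Nat.unpair_pair]
    exact exists_congr (fun v => hc n v)
  rw [h3]
  exact rec_comp_primrec (rec_refl _) (Primrec₂.natPair.comp (Primrec.const c) Primrec.id)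

theorem o_le_KK (x : Ca) : RecursiveIn {(ind (KK x) : ℕ →. ℕ)} (o x : ℕ →. ℕ) := by
  obtain ⟨c, hc⟩ := univ (F := fun σ n => (σ[n]?).bind (fun v => if v = 1 then some 0 else none))
    (by
      refine Primrec.option_bind Primrec.list_getElem? ?_
      exact Primrec.ite (Primrec.eq.comp Primrec.snd (Primrec.const 1)) (Primrec.const (some 0))
        (Primrec.const none))
    (by
      intro σ τ n m hst h
      rw [Option.bind_eq_some_iff] at h ⊢
      obtain ⟨a, h1, h2⟩ := h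
      exact ⟨a, Pool.Agent.Helper760.OracleNF.getElem?_ext hst h1, h2⟩)
  have h3 : o x = fun n => ind (KK x) (Nat.pair c n) := by
    funext n
    have h4 : Nat.pair c n ∈ KK x ↔ o x n = 1 := by
      show (∃ v, ph (Nat.pair c n).unpair.1 (o x) (Nat.pair c n).unpair.2 v) ↔ _
      rw [Nat.unpair_pair]
      constructor
      · rintro ⟨v, hv⟩
        obtain ⟨k, hk⟩ := (hc _ _ _).1 hv
        rw [Option.bind_eq_some_iff] at hk
        obtain ⟨a, h1, h2⟩ := hk
        have h5 := ((Pool.Agent.Helper760.OracleNF.getElem?_pre (o x) n k a).1 h1).2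
        by_cases h6 : a = 1
        · rw [h5, h6]
        · rw [if_neg h6] at h2; exact absurd h2 (by simp)
      · intro h1
        refine ⟨0, (hc _ _ _).2 ⟨n + 1, ?_⟩⟩
        rw [Option.bind_eq_some_iff]
        exact ⟨1, (Pool.Agent.Helper760.OracleNF.getElem?_pre (o x) n (n + 1) 1).2
          ⟨by omega, h1⟩, if_pos rfl⟩
    by_cases h5 : Nat.pair c n ∈ KK x
    · rw [ind_one h5]; exact h4.1 h5
    · rw [ind_zero h5]
      have h6 : o x n ≠ 1 := fun h => h5 (h4.2 h)
      unfold o at h6 ⊢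
      cases hx : x n
      · rfl
      · rw [hx] at h6; exact absurd rfl h6
  have h4 := rec_comp_primrec (g := ind (KK x)) (rec_refl _)
    (Primrec₂.natPair.comp (Primrec.const c) Primrec.id)
  rw [h3]
  exact h4

theorem KK_le_jj (x : Ca) : RecursiveIn {(jj x : ℕ →. ℕ)} (ind (KK x) : ℕ →. ℕ) := by
  have h1 : ind (KK x) = fun n => (fun m => if m = 1 then 0 else 1) (jj x n) := by
    funext n
    show ind (KK x) n = if jj x n = 1 then 0 else 1
    rcases J_cases x n with h | ⟨k, v, h⟩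
    · rw [if_pos (by unfold jj; rw [h]), ind_zero]
      rintro ⟨v, hv⟩
      obtain ⟨k, hk⟩ := ph_hit hv
      exact J_zero.1 h k v hk
    · rw [if_neg (by unfold jj; rw [h]; omega), ind_one]
      exact ⟨v, hit_ph (J_hit.1 h)⟩
  rw [h1]
  refine rec_primrec_comp (p := fun m => if m = 1 then 0 else 1) (rec_refl _) ?_
  exact Primrec.ite (Primrec.eq.comp Primrec.id (Primrec.const 1)) (Primrec.const 0)
    (Primrec.const 1)

end Pool.Agent.H84R6
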