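import Pool.Agent.H84R6.Deg

set_option autoImplicit false

namespace Pool.Agent.H84R6

open Encodable Classical

noncomputable def ww (x : Ca) : Sq := fun n => Nat.pair (ind (KK x) n) (o x n)

def H2 (σ : List ℕ) (a k : ℕ) : Option ℕ :=
  (GG ((tk σ k).map (fun q => q.unpair.2)) a.unpair.1 a.unpair.2).map
    (fun v => 2 * (Nat.pair k v + 1) + 1)

def H1 (σ : List ℕ) (a : ℕ) : Option ℕ :=
  (σ[a]?).bind (fun p => if p.unpair.1 = 0 then some 1 else fst1 (H2 σ a) (σ.length + 1))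

theorem primrec_H2 : Primrec₂ (fun (z : List ℕ × ℕ) (k : ℕ) => H2 z.1 z.2 k) := by
  unfold H2
  refine Primrec.option_map ?_ ?_
  · have h1 : Primrec (fun p : (List ℕ × ℕ) × ℕ => (tk p.1.1 p.2).map (fun q => q.unpair.2)) := by
      refine Primrec.list_map (primrec_tk.comp (Primrec.fst.comp Primrec.fst) Primrec.snd) ?_
      exact Primrec.snd.comp (Primrec.unpair.comp Primrec.snd)
    have h2 : Primrec (fun p : (List ℕ × ℕ) × ℕ => p.1.2.unpair) :=
      Primrec.unpair.comp (Primrec.snd.comp Primrec.fst)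
    exact primrec_GG.comp (Primrec.pair h1 (Primrec.pair (Primrec.fst.comp h2)
      (Primrec.snd.comp h2)))
  · have h3 : Primrec (fun p : ((List ℕ × ℕ) × ℕ) × ℕ => Nat.pair p.1.2 p.2) :=
      Primrec₂.natPair.comp (Primrec.snd.comp Primrec.fst) Primrec.snd
    exact Primrec.succ.comp (Primrec.nat_mul.comp (Primrec.const 2) (Primrec.succ.comp h3))

theorem primrec_H1 : Primrec₂ H1 := by
  unfold H1
  refine Primrec.option_bind Primrec.list_getElem? ?_
  refine Primrec.ite ?_ (Primrec.const (some 1)) ?_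
  · exact Primrec.eq.comp (Primrec.fst.comp (Primrec.unpair.comp Primrec.snd)) (Primrec.const 0)
  · unfold fst1
    refine Primrec.list_head?.comp ?_
    refine Primrec.listFilterMap
      (Primrec.list_range.comp (Primrec.succ.comp (Primrec.list_length.comp
        (Primrec.fst.comp Primrec.fst)))) ?_
    exact primrec_H2.comp (Primrec.fst.comp Primrec.fst) Primrec.snd

theorem map_ww (x : Ca) (m : ℕ) : (pre (ww x) m).map (fun q => q.unpair.2) = pre (o x) m := by
  unfold pre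
  rw [List.map_map]
  apply List.map_congr_left
  intro a _
  simp [ww]

theorem H2_ww (x : Ca) (K a k : ℕ) (hk : k ≤ K) : H2 (pre (ww x) K) a k =
    (GG (pre (o x) k) a.unpair.1 a.unpair.2).map (fun v => 2 * (Nat.pair k v + 1) + 1) := by
  unfold H2
  rw [tk_eq, take_pre, min_eq_left hk, map_ww]

theorem jj_le_ww (x : Ca) : RecursiveIn {(ww x : ℕ →. ℕ)} (jj x : ℕ →. ℕ) := by
  apply tot_of_stepped primrec_H1
  · intro a k v hv
    unfold H1 at hv
    rw [Option.bind_eq_some_iff] at hv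
    obtain ⟨p, h1, h2⟩ := hv
    have h3 := ((Pool.Agent.Helper760.OracleNF.getElem?_pre (ww x) a k p).1 h1).2
    subst h3
    have h4 : (ww x a).unpair.1 = ind (KK x) a := by simp [ww]
    rw [h4] at h2
    by_cases h5 : a ∈ KK x
    · rw [ind_one h5, if_neg (by omega), fst1_iff] at h2
      obtain ⟨k', h6, h7, h8⟩ := h2
      rw [length_pre] at h6
      rw [H2_ww _ _ _ _ (by omega), Option.map_eq_some_iff] at h7
      obtain ⟨v', h9, h10⟩ := h7
      have h11 : hit x a k' v' := by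
        refine ⟨h9, fun j hj => ?_⟩
        have := h8 j hj
        rw [H2_ww _ _ _ _ (by omega), Option.map_eq_none_iff] at this
        exact this
      rw [← h10]
      unfold jj
      rw [J_hit.2 h11]
    · rw [ind_zero h5, if_pos rfl] at h2
      have h6 : J x a = 0 := by
        rw [J_zero]
        intro k v hk
        exact h5 ⟨v, hit_ph hk⟩
      unfold jj
      rw [h6]
      exact (Option.some.inj h2).symm
  · intro a
    have h4 : (ww x a).unpair.1 = ind (KK x) a := by simp [ww]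
    by_cases h5 : a ∈ KK x
    · obtain ⟨v, hv⟩ := h5
      obtain ⟨k, hk⟩ := ph_hit hv
      refine ⟨max (a + 1) k, 2 * (Nat.pair k v + 1) + 1, ?_⟩
      unfold H1
      rw [Option.bind_eq_some_iff]
      refine ⟨ww x a, (Pool.Agent.Helper760.OracleNF.getElem?_pre (ww x) a _ _).2
        ⟨by omega, rfl⟩, ?_⟩
      have h5' : a ∈ KK x := ⟨v, hv⟩
      rw [h4, ind_one h5', if_neg (by omega), fst1_iff]
      refine ⟨k, by rw [length_pre]; omega, ?_, fun j hj => ?_⟩
      · rw [H2_ww _ _ _ _ (by omega), hk.1]; rfl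
      · rw [H2_ww _ _ _ _ (by omega), hk.2 j hj]; rfl
    · refine ⟨a + 1, 1, ?_⟩
      unfold H1
      rw [Option.bind_eq_some_iff]
      refine ⟨ww x a, (Pool.Agent.Helper760.OracleNF.getElem?_pre (ww x) a _ _).2
        ⟨by omega, rfl⟩, ?_⟩
      rw [h4, ind_zero h5, if_pos rfl]

theorem ww_le_KK (x : Ca) : RecursiveIn {(ind (KK x) : ℕ →. ℕ)} (ww x : ℕ →. ℕ) := by
  have h1 := o_le_KK x
  have h2 := rec_refl (ind (KK x))
  rw [RecursiveIn.iff_nat] at h1 h2 ⊢
  exact Pool.Agent.Helper760.OracleNF.recIn_pair (ind (KK x)) (f := ind (KK x)) (h := o x) h2 h1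

theorem jj_le_KK (x : Ca) : RecursiveIn {(ind (KK x) : ℕ →. ℕ)} (jj x : ℕ →. ℕ) :=
  rec_trans (jj_le_ww x) (ww_le_KK x)

theorem KK_mono {x y : Ca} (h : tle x y) :
    RecursiveIn {(ind (KK y) : ℕ →. ℕ)} (ind (KK x) : ℕ →. ℕ) := by
  apply KK_complete
  obtain ⟨f, h1, h2⟩ := KK_re x
  exact ⟨f, TuringReducible.trans h1 (tle_iff'.2 h), h2⟩

/-- the jump clause of the statement -/
theorem jump_clause {x x1 : Ca} {u : Sq} (h1 : tle x x1) (h2 : tle x1 x) (h3 : F0 u (jj x1)) :
    ∃ A : Set ℕ,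
      (∃ f : ℕ →. ℕ, RecursiveIn {PFun.lift (fun n => (x n).toNat)} f ∧ ∀ n, n ∈ A ↔ (f n).Dom) ∧
      (∀ B : Set ℕ,
        (∃ f : ℕ →. ℕ, RecursiveIn {PFun.lift (fun n => (x n).toNat)} f ∧
            ∀ n, n ∈ B ↔ (f n).Dom) →
        RecursiveIn {PFun.lift (A.indicator (fun _ => (1 : ℕ)))}
          (PFun.lift (B.indicator (fun _ => (1 : ℕ))))) ∧
      RecursiveIn {PFun.lift (A.indicator (fun _ => (1 : ℕ)))} (PFun.lift u) ∧
      RecursiveIn {PFun.lift u} (PFun.lift (A.indicator (fun _ => (1 : ℕ)))) := by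
  obtain ⟨n, h4, -⟩ := h3
  refine ⟨KK x, KK_re x, fun B hB => KK_complete x B hB, ?_, ?_⟩
  · exact rec_trans (fin_mod h4) (rec_trans (jj_le_KK x1) (KK_mono h2))
  · exact rec_trans (KK_mono h1) (rec_trans (KK_le_jj x1)
      (fin_mod (fun i hi => (h4 i hi).symm)))

end Pool.Agent.H84R6
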