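import Pool.Agent.H84R6.Base
import Pool.Agent.Helper760.OracleNF

set_option autoImplicit false

namespace Pool.Agent.H84R6

open Nat.Partrec (Code)
open Encodable
open Pool.Agent.Helper760.OracleNF (Mon)

/-- first value -/
def fst1 (f : ℕ → Option ℕ) (N : ℕ) : Option ℕ := ((List.range N).filterMap f).head?

theorem fst1_iff (f : ℕ → Option ℕ) (N v : ℕ) :
    fst1 f N = some v ↔ ∃ k < N, f k = some v ∧ ∀ j < k, f j = none := by
  induction N with
  | zero => simp [fst1]
  | succ N ih =>
    unfold fst1 at ih ⊢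
    rw [List.range_succ, List.filterMap_append, List.head?_append]
    constructor
    · intro h
      cases hh : ((List.range N).filterMap f).head? with
      | some w =>
        rw [hh] at h ih
        obtain ⟨k, h1, h2⟩ := ih.1 (by simpa using h)
        exact ⟨k, by omega, h2⟩
      | none =>
        rw [hh] at h
        rw [List.head?_eq_none_iff, List.filterMap_eq_nil_iff] at hh
        refine ⟨N, by omega, ?_, fun j hj => hh j (List.mem_range.2 hj)⟩
        cases hf : f N with
        | none => simp [hf] at h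
        | some w => simp [hf] at h; rw [h]
    · rintro ⟨k, h1, h2, h3⟩
      rcases Nat.lt_succ_iff_lt_or_eq.1 h1 with h4 | rfl
      · rw [ih.2 ⟨k, h4, h2, h3⟩]; rfl
      · have hh : ((List.range k).filterMap f) = [] := by
          rw [List.filterMap_eq_nil_iff]
          intro a ha
          exact h3 a (List.mem_range.1 ha)
        rw [hh]
        simp [h2]

theorem fst1_some {f : ℕ → Option ℕ} {N k : ℕ} (hk : k < N) (h : f k ≠ none) :
    ∃ v, fst1 f N = some v := by
  have hex : ∃ k, f k ≠ none := ⟨k, h⟩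
  obtain ⟨v, hv⟩ := Option.ne_none_iff_exists'.1 (Nat.find_spec hex)
  refine ⟨v, (fst1_iff _ _ _).2 ⟨Nat.find hex, lt_of_le_of_lt (Nat.find_min' hex h) hk, hv, ?_⟩⟩
  intro j hj
  have := Nat.find_min hex hj
  simpa using this

/-- the first `k` entries -/
def tk (σ : List ℕ) (k : ℕ) : List ℕ := (List.range k).filterMap (fun i => σ[i]?)

theorem tk_eq (σ : List ℕ) (k : ℕ) : tk σ k = σ.take k := by
  induction k with
  | zero => simp [tk]
  | succ k ih =>
    unfold tk at ih ⊢
    rw [List.range_succ, List.filterMap_append, ih, List.take_add_one]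
    congr 1

theorem primrec_tk : Primrec₂ tk := by
  unfold tk
  exact Primrec.listFilterMap (Primrec.list_range.comp Primrec.snd)
    (Primrec.list_getElem?.comp (Primrec.fst.comp Primrec.fst) Primrec.snd)

def ev0 (τ : List ℕ) (c n s : ℕ) : Option ℕ :=
  (Code.evaln τ.length (Denumerable.ofNat Code c) (encode (tk τ s, n))).bind
    (fun m => (decode (α := Option ℕ) m).getD none)

def G0 (τ : List ℕ) (c n : ℕ) : Option ℕ := fst1 (ev0 τ c n) (τ.length + 1)

/-- the universal stepped evaluator -/
def GG (σ : List ℕ) (c n : ℕ) : Option ℕ := fst1 (fun k => G0 (tk σ k) c n) (σ.length + 1)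

theorem primrec_ev0 : Primrec₂ (fun (z : List ℕ × (ℕ × ℕ)) (s : ℕ) => ev0 z.1 z.2.1 z.2.2 s) := by
  unfold ev0
  refine Primrec.option_bind ?_ ?_
  · have h1 : Primrec (fun p : (List ℕ × (ℕ × ℕ)) × ℕ =>
        (((p.1.1.length, Denumerable.ofNat Code p.1.2.1), encode (tk p.1.1 p.2, p.1.2.2)) :
          (ℕ × Code) × ℕ)) := by
      refine Primrec.pair (Primrec.pair ?_ ?_) ?_
      · exact Primrec.list_length.comp (Primrec.fst.comp Primrec.fst)
      · exact (Primrec.ofNat Code).comp (Primrec.fst.comp (Primrec.snd.comp Primrec.fst))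
      · refine Primrec.encode.comp (Primrec.pair ?_ ?_)
        · exact primrec_tk.comp (Primrec.fst.comp Primrec.fst) Primrec.snd
        · exact Primrec.snd.comp (Primrec.snd.comp Primrec.fst)
    exact Code.primrec_evaln.comp h1
  · exact Primrec.option_getD.comp (Primrec.decode.comp Primrec.snd) (Primrec.const none)

theorem primrec_G0 : Primrec (fun z : List ℕ × (ℕ × ℕ) => G0 z.1 z.2.1 z.2.2) := by
  unfold G0 fst1
  refine Primrec.list_head?.comp ?_
  exact Primrec.listFilterMap
    (Primrec.list_range.comp (Primrec.succ.comp (Primrec.list_length.comp Primrec.fst)))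
    primrec_ev0

theorem primrec_GG : Primrec (fun z : List ℕ × (ℕ × ℕ) => GG z.1 z.2.1 z.2.2) := by
  unfold GG fst1
  refine Primrec.list_head?.comp ?_
  refine Primrec.listFilterMap
    (Primrec.list_range.comp (Primrec.succ.comp (Primrec.list_length.comp Primrec.fst))) ?_
  exact primrec_G0.comp (Primrec.pair
    (primrec_tk.comp (Primrec.fst.comp Primrec.fst) Primrec.snd)
    (Primrec.snd.comp Primrec.fst))

theorem take_prefix {σ τ : List ℕ} (h : σ <+: τ) {k : ℕ} (hk : k ≤ σ.length) :
    τ.take k = σ.take k := by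
  obtain ⟨ρ, rfl⟩ := h
  rw [List.take_append_of_le_length hk]

theorem GG_mon {σ τ : List ℕ} {c n m : ℕ} (h : σ <+: τ) (hm : GG σ c n = some m) :
    GG τ c n = some m := by
  unfold GG at hm ⊢
  rw [fst1_iff] at hm ⊢
  obtain ⟨k, h1, h2, h3⟩ := hm
  have hl := h.length_le
  refine ⟨k, by omega, ?_, fun j hj => ?_⟩
  · rw [tk_eq, take_prefix h (by omega), ← tk_eq]; exact h2
  · rw [tk_eq, take_prefix h (by omega), ← tk_eq]; exact h3 j hj

/-- the value of the `c`-th functional -/
def ph (c : ℕ) (g : Sq) (n v : ℕ) : Prop := ∃ k, GG (pre g k) c n = some v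

theorem pre_pre (g : Sq) {k k' : ℕ} (h : k ≤ k') : pre g k <+: pre g k' :=
  Pool.Agent.Helper760.OracleNF.pre_le g h

theorem take_pre (g : Sq) (k k' : ℕ) : (pre g k').take k = pre g (min k k') := by
  rcases le_total k k' with h | h
  · rw [min_eq_left h]; exact Pool.Agent.Helper760.OracleNF.take_pre g h
  · rw [min_eq_right h, List.take_of_length_le (by simpa using h)]

theorem ph_unique {c : ℕ} {g : Sq} {n v v' : ℕ} (h : ph c g n v) (h' : ph c g n v') : v = v' := by
  obtain ⟨k, hk⟩ := h
  obtain ⟨k', hk'⟩ := h'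
  have h1 := GG_mon (pre_pre g (le_max_left k k')) hk
  have h2 := GG_mon (pre_pre g (le_max_right k k')) hk'
  rw [h1] at h2
  exact Option.some.inj h2

theorem univ {F : List ℕ → ℕ → Option ℕ} (hF : Primrec₂ F) (hM : Mon F) :
    ∃ c, ∀ g n v, ph c g n v ↔ ∃ k, F (pre g k) n = some v := by
  have hp : Partrec (fun p : List ℕ × ℕ => Part.some (F p.1 p.2)) := hF.to_comp.partrec
  obtain ⟨c, hc⟩ := Code.exists_code.1 hp
  have hev : ∀ p : List ℕ × ℕ, c.eval (encode p) = Part.some (encode (F p.1 p.2)) := by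
    intro p
    rw [hc]
    simp only [encodek, Part.coe_some, Part.bind_some, Part.map_some]
  have key : ∀ g n v, ph (encode c) g n v → ∃ k, F (pre g k) n = some v := by
    rintro g n v ⟨k, hk⟩
    unfold GG at hk
    rw [fst1_iff] at hk
    obtain ⟨k1, -, h1, -⟩ := hk
    unfold G0 at h1
    rw [fst1_iff] at h1
    obtain ⟨s, -, h2, -⟩ := h1
    unfold ev0 at h2
    rw [Option.bind_eq_some_iff] at h2
    obtain ⟨m, h3, h4⟩ := h2
    rw [Denumerable.ofNat_encode, tk_eq, tk_eq, take_pre, take_pre] at h3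
    have h5 := Code.evaln_sound (Option.mem_def.2 h3)
    rw [hev] at h5
    have h6 := Part.mem_some_iff.1 h5
    rw [h6, encodek] at h4
    exact ⟨_, h4⟩
  refine ⟨encode c, fun g n v => ⟨key g n v, ?_⟩⟩
  rintro ⟨k, hk⟩
  have h1 : encode (F (pre g k) n) ∈ c.eval (encode (pre g k, n)) := by
    rw [hev]; exact Part.mem_some _
  obtain ⟨K, hK⟩ := Code.evaln_complete.1 h1
  have h2 : ev0 (pre g (max K k)) (encode c) n k ≠ none := by
    unfold ev0
    rw [length_pre, Denumerable.ofNat_encode, tk_eq, take_pre, min_eq_left (le_max_right K k)]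
    have h3 := Option.mem_def.1 (Code.evaln_mono (le_max_left K k) hK)
    rw [h3, Option.bind_some, encodek, Option.getD_some, hk]
    simp
  obtain ⟨v1, h3⟩ := fst1_some (f := ev0 (pre g (max K k)) (encode c) n)
    (N := (pre g (max K k)).length + 1) (k := k) (by rw [length_pre]; omega) h2
  have h4 : G0 (tk (pre g (max K k)) (max K k)) (encode c) n ≠ none := by
    rw [tk_eq, take_pre, min_self]
    unfold G0
    rw [h3]; simp
  obtain ⟨v2, h5⟩ := fst1_some (f := fun k' => G0 (tk (pre g (max K k)) k') (encode c) n)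
    (N := (pre g (max K k)).length + 1) (k := max K k) (by rw [length_pre]; omega) h4
  have h6 : ph (encode c) g n v2 := ⟨max K k, h5⟩
  obtain ⟨k', h7⟩ := key g n v2 h6
  have h8 := hM _ _ _ _ (pre_pre g (le_max_left k k')) hk
  have h9 := hM _ _ _ _ (pre_pre g (le_max_right k k')) h7
  rw [h8] at h9
  rw [Option.some.inj h9]
  exact h6

end Pool.Agent.H84R6
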