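import Pool.Agent.H84R6.Base

set_option autoImplicit false

namespace Pool.Agent.H84R6

open Classical

/-- data for the extension lemma -/
structure Dat where
  D : Set Sq
  D' : Set Sq
  h : Sq → Sq
  cl : IsClosed D
  cl' : IsClosed D'
  ne : D.Nonempty
  odd : ∀ d ∈ D, ∀ i, d i % 2 = 1
  odd' : ∀ d ∈ D', ∀ i, d i % 2 = 1
  maps : ∀ d ∈ D, h d ∈ D'

variable (X : Dat)

/-- the last level at which `u` is still in the tree of `D` -/
noncomputable def lev (D : Set Sq) (u : Sq) : ℕ := sInf {n | ¬ ∃ d ∈ D, agr (n + 1) u d}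

theorem lev_spec {D : Set Sq} (cl : IsClosed D) (ne : D.Nonempty) {u : Sq} (hu : u ∉ D) :
    (¬ ∃ d ∈ D, agr (lev D u + 1) u d) ∧ (∃ d ∈ D, agr (lev D u) u d) := by
  have hne : {n | ¬ ∃ d ∈ D, agr (n + 1) u d}.Nonempty := by
    obtain ⟨n, hn⟩ := isClosed_iff_agr.1 cl u hu
    refine ⟨n, ?_⟩
    rintro ⟨d, hd, h1⟩
    exact hn d (h1.mono (Nat.le_succ n)) hd
  refine ⟨Nat.sInf_mem hne, ?_⟩
  rcases Nat.eq_zero_or_pos (lev D u) with h | h
  · rw [h]
    obtain ⟨d, hd⟩ := ne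
    exact ⟨d, hd, fun i hi => absurd hi (Nat.not_lt_zero _)⟩
  · by_contra hc
    have h2 : lev D u - 1 ∈ {n | ¬ ∃ d ∈ D, agr (n + 1) u d} := by
      show ¬ ∃ d ∈ D, agr (lev D u - 1 + 1) u d
      rwa [Nat.sub_add_cancel h]
    have h3 := Nat.sInf_le h2
    have h4 : lev D u ≤ lev D u - 1 := h3
    omega

theorem lev_eq {D : Set Sq} {u : Sq} {n : ℕ} (h1 : ¬ ∃ d ∈ D, agr (n + 1) u d)
    (h2 : ∃ d ∈ D, agr n u d) : lev D u = n := by
  apply le_antisymm
  · exact Nat.sInf_le h1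
  · apply le_csInf ⟨n, h1⟩
    intro m hm
    by_contra hc
    obtain ⟨d, hd, h3⟩ := h2
    exact hm ⟨d, hd, h3.mono (by omega)⟩

theorem lev_congr {D : Set Sq} (cl : IsClosed D) (ne : D.Nonempty) {u v : Sq} (hu : u ∉ D)
    (h : agr (lev D u + 1) u v) : v ∉ D ∧ lev D v = lev D u := by
  obtain ⟨h1, d, hd, h2⟩ := lev_spec cl ne hu
  refine ⟨fun hv => h1 ⟨v, hv, h⟩, lev_eq ?_ ⟨d, hd, ((h.mono (Nat.le_succ _)).symm).trans h2⟩⟩
  rintro ⟨d', hd', h3⟩
  exact h1 ⟨d', hd', h.trans h3⟩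

theorem lev_ge {D : Set Sq} (cl : IsClosed D) (ne : D.Nonempty) {u d : Sq} (hu : u ∉ D) (hd : d ∈ D)
    {n : ℕ} (h : agr n u d) : n ≤ lev D u := by
  by_contra hc
  exact (lev_spec cl ne hu).1 ⟨d, hd, h.mono (by omega)⟩

noncomputable def pick (D : Set Sq) (q : List ℕ) : Sq :=
  if h : ∃ d ∈ D, pre d q.length = q then h.choose else fun _ => 0

theorem pick_spec {D : Set Sq} {u : Sq} {n : ℕ} (h : ∃ d ∈ D, agr n u d) :
    pick D (pre u n) ∈ D ∧ agr n u (pick D (pre u n)) := by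
  have h' : ∃ d ∈ D, pre d (pre u n).length = pre u n := by
    obtain ⟨d, hd, h1⟩ := h
    refine ⟨d, hd, ?_⟩
    rw [length_pre]
    exact pre_eq_iff.2 h1.symm
  rw [pick, dif_pos h']
  refine ⟨h'.choose_spec.1, ?_⟩
  have key : ∀ c : Sq, pre c (pre u n).length = pre u n → agr n u c := by
    intro c hc
    rw [length_pre] at hc
    exact pre_eq_iff.1 hc.symm
  exact key _ h'.choose_spec.2

/-- the replacing symbol -/
noncomputable def Lb (u : Sq) : ℕ :=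
  lbl (S u (lev X.D u + 1)) (Nat.pair (Encodable.encode (pre u (lev X.D u))) (u (lev X.D u)))

noncomputable def A (u : Sq) : Sq := fun i =>
  if i < lev X.D u then X.h (pick X.D (pre u (lev X.D u))) i
  else if i = lev X.D u then Lb X u else u i

theorem A_head (u : Sq) : agr (lev X.D u) (X.h (pick X.D (pre u (lev X.D u)))) (A X u) := by
  intro i hi
  rw [A, if_pos hi]

theorem A_label (u : Sq) : A X u (lev X.D u) = Lb X u := by
  rw [A, if_neg (lt_irrefl _), if_pos rfl]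

theorem A_tail (u : Sq) {i : ℕ} (hi : lev X.D u + 1 ≤ i) : A X u i = u i := by
  rw [A, if_neg (by omega), if_neg (by omega)]

theorem ne' : X.D'.Nonempty := ⟨_, X.maps _ X.ne.choose_spec⟩

theorem A_lev {u : Sq} (hu : u ∉ X.D) : A X u ∉ X.D' ∧ lev X.D' (A X u) = lev X.D u := by
  have hs := (lev_spec X.cl X.ne hu).2
  have hp := pick_spec hs
  have h1 : ¬ ∃ d ∈ X.D', agr (lev X.D u + 1) (A X u) d := by
    rintro ⟨d, hd, h2⟩
    have h3 := X.odd' d hd (lev X.D u)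
    rw [← h2 _ (Nat.lt_succ_self _), A_label, Lb, lbl_even] at h3
    omega
  refine ⟨fun h => h1 ⟨_, h, agr.refl _ _⟩, lev_eq h1 ⟨_, X.maps _ hp.1, (A_head X u).symm⟩⟩

theorem A_label_lt {u : Sq} (hu : u ∉ X.D) : u (lev X.D u) < A X u (lev X.D' (A X u)) := by
  rw [(A_lev X hu).2, A_label]
  have h1 := Nat.right_le_pair (Encodable.encode (pre u (lev X.D u))) (u (lev X.D u))
  exact lt_of_le_of_lt h1 (lt_lbl _ _)

theorem Lb_congr {u v : Sq} (hu : u ∉ X.D) (h : agr (lev X.D u + 1) u v) : Lb X v = Lb X u := by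
  have h1 := (lev_congr X.cl X.ne hu h).2
  rw [Lb, Lb, h1, pre_eq_iff.2 (h.mono (Nat.le_succ _)), S_congr h, h _ (Nat.lt_succ_self _)]

theorem A_of_agr {u v : Sq} (hu : u ∉ X.D) (h : agr (lev X.D u + 1) u v) :
    A X v = fun i => if i < lev X.D u + 1 then A X u i else v i := by
  funext i
  have h1 := (lev_congr X.cl X.ne hu h).2
  rw [A, Lb_congr X hu h, h1, ← pre_eq_iff.2 (h.mono (Nat.le_succ _)), A]
  split_ifs <;> first | rfl | omega

theorem A_inj {u v : Sq} (hu : u ∉ X.D) (hv : v ∉ X.D) (h : A X u = A X v) : u = v := by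
  have h1 : lev X.D u = lev X.D v := by
    rw [← (A_lev X hu).2, ← (A_lev X hv).2, h]
  have h2 : A X u (lev X.D u) = A X v (lev X.D v) := by rw [h, h1]
  rw [A_label, A_label] at h2
  obtain ⟨h4, h5⟩ := Nat.pair_eq_pair.1 (lbl_inj h2).2
  have h6 : pre u (lev X.D u) = pre v (lev X.D v) := Encodable.encode_injective h4
  rw [← h1] at h6 h5
  funext i
  rcases lt_trichotomy i (lev X.D u) with h | h | h
  · exact pre_eq_iff.1 h6 i h
  · rw [h, h5]
  · rw [← A_tail X u h, ← A_tail X v (by omega), ‹A X u = A X v›]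

theorem A_F1 {u : Sq} (_hu : u ∉ X.D) : F0 u (A X u) := by
  refine ⟨lev X.D u + 1, fun i hi => (A_tail X u hi).symm, ?_⟩
  exact (S_lbl (A_label X u)).symm

theorem A_cont {u : Sq} (hu : u ∉ X.D) (N : ℕ) : ∃ n, ∀ v, agr n u v → v ∉ X.D ∧ agr N (A X u) (A X v) := by
  refine ⟨lev X.D u + 1 + N, fun v hv => ?_⟩
  have h1 : agr (lev X.D u + 1) u v := hv.mono (by omega)
  refine ⟨(lev_congr X.cl X.ne hu h1).1, ?_⟩
  rw [A_of_agr X hu h1]
  intro i hi
  show A X u i = if i < lev X.D u + 1 then A X u i else v i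
  split_ifs with h2
  · rfl
  · rw [A_tail X u (by omega)]
    exact hv i (by omega)

theorem A_open' {u : Sq} (hu : u ∉ X.D) (N : ℕ) {v : Sq} (hv : agr (lev X.D u + 1 + N) (A X u) v) :
    ∃ u' ∉ X.D, agr (lev X.D u + 1 + N) u u' ∧ A X u' = v := by
  set u' : Sq := fun i => if i < lev X.D u + 1 then u i else v i with hu'
  have h1 : agr (lev X.D u + 1 + N) u u' := by
    intro i hi
    show u i = if i < lev X.D u + 1 then u i else v i
    split_ifs with h2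
    · rfl
    · rw [← A_tail X u (by omega)]
      exact hv i hi
  have h5 : agr (lev X.D u + 1) u u' := h1.mono (by omega)
  refine ⟨u', (lev_congr X.cl X.ne hu h5).1, h1, ?_⟩
  rw [A_of_agr X hu h5]
  funext i
  show (if i < lev X.D u + 1 then A X u i else u' i) = v i
  split_ifs with h2
  · exact hv i (by omega)
  · show (if i < lev X.D u + 1 then u i else v i) = v i
    rw [if_neg h2]

theorem A_open {u : Sq} (hu : u ∉ X.D) (N : ℕ) : ∃ n, ∀ v, agr n (A X u) v →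
    ∃ u' ∉ X.D, agr N u u' ∧ A X u' = v := by
  refine ⟨lev X.D u + 1 + N, fun v hv => ?_⟩
  obtain ⟨u', h1, h2, h3⟩ := A_open' X hu N hv
  exact ⟨u', h1, h2.mono (by omega), h3⟩

theorem A_closed {w : Sq} (hw : w ∉ X.D') (h : ∀ u ∉ X.D, A X u ≠ w) :
    ∃ n, ∀ v, agr n w v → ∀ u ∉ X.D, A X u ≠ v := by
  refine ⟨lev X.D' w + 1, fun v hv u hu he => ?_⟩
  have h1 := (lev_congr X.cl' (ne' X) hw hv).2
  have h2 := (A_lev X hu).2
  rw [he] at h2
  obtain ⟨u', h5, -, h6⟩ := A_open' X hu 0 (v := w) (by rw [he]; exact hv.symm.mono (by omega))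
  exact h u' h5 h6

/-! ### continuity facts at points of `D` -/

/-- continuity of `h` on `D` -/
def ContOn (D : Set Sq) (h : Sq → Sq) : Prop :=
  ∀ d ∈ D, ∀ N, ∃ n, ∀ d' ∈ D, agr n d d' → agr N (h d) (h d')

theorem KA (hc : ContOn X.D X.h) {d : Sq} (hd : d ∈ X.D) (N : ℕ) :
    ∃ n, ∀ u ∉ X.D, agr n d u → agr N (X.h d) (A X u) := by
  obtain ⟨n0, h0⟩ := hc d hd N
  refine ⟨max n0 N, fun u hu h1 => ?_⟩
  have h2 := lev_ge X.cl X.ne hu hd h1.symm
  have h3 := pick_spec (lev_spec X.cl X.ne hu).2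
  have h4 : agr n0 d (pick X.D (pre u (lev X.D u))) :=
    (h1.mono (le_max_left _ _)).trans (h3.2.mono (le_trans (le_max_left _ _) h2))
  exact (h0 _ h3.1 h4).trans ((A_head X u).mono (le_trans (le_max_right _ _) h2))

/-- a pair of mutually inverse data -/
structure Dat2 where
  X : Dat
  Y : Dat
  hD : Y.D = X.D'
  hD' : Y.D' = X.D
  inv : ∀ d ∈ X.D, Y.h (X.h d) = d
  inv' : ∀ d ∈ X.D', X.h (Y.h d) = d
  hc : ContOn X.D X.h
  hc' : ContOn X.D' Y.h

def Dat2.swap (Z : Dat2) : Dat2 where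
  X := Z.Y
  Y := Z.X
  hD := Z.hD'.symm
  hD' := Z.hD.symm
  inv := by rw [Z.hD]; exact Z.inv'
  inv' := by rw [Z.hD']; exact Z.inv
  hc := by rw [Z.hD]; exact Z.hc'
  hc' := by rw [Z.hD']; exact Z.hc

variable (Z : Dat2)

theorem KB {d : Sq} (hd : d ∈ Z.X.D) (N : ℕ) :
    ∃ n, ∀ w ∉ Z.X.D', agr n d (A Z.Y w) → agr N (Z.X.h d) w := by
  obtain ⟨n0, h0⟩ := Z.hc d hd N
  refine ⟨max n0 N, fun w hw h1 => ?_⟩
  have hw' : w ∉ Z.Y.D := by rw [Z.hD]; exact hw
  have e1 := A_lev Z.Y hw'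
  rw [Z.hD'] at e1
  have h2 := lev_ge Z.X.cl Z.X.ne e1.1 hd h1.symm
  rw [e1.2] at h2
  have h3 := pick_spec (lev_spec Z.Y.cl Z.Y.ne hw').2
  set d' := pick Z.Y.D (pre w (lev Z.Y.D w)) with hd'
  have h4 : Z.Y.h d' ∈ Z.X.D := by
    have := Z.Y.maps d' h3.1
    rwa [Z.hD'] at this
  have h5 : agr n0 d (Z.Y.h d') :=
    (h1.mono (le_max_left _ _)).trans
      (((A_head Z.Y w).symm).mono (le_trans (le_max_left _ _) h2))
  have h6 := h0 _ h4 h5
  have h7 : d' ∈ Z.X.D' := by rw [← Z.hD]; exact h3.1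
  rw [Z.inv' d' h7] at h6
  exact h6.trans (h3.2.symm.mono (le_trans (le_max_right _ _) h2))

/-- the chain predicate -/
inductive C : Sq → Prop
  | base (u : Sq) (hu : u ∉ Z.X.D) (h : ∀ w ∉ Z.X.D', A Z.Y w ≠ u) : C u
  | step (u : Sq) (hu : C u) : C (A Z.Y (A Z.X u))

theorem C_not {u : Sq} (h : C Z u) : u ∉ Z.X.D := by
  induction h with
  | base u hu _ => exact hu
  | step u hu ih =>
    have h1 := (A_lev Z.X ih).1
    rw [← Z.hD] at h1
    have h2 := (A_lev Z.Y h1).1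
    rwa [Z.hD'] at h2

theorem notC {u : Sq} (hu : u ∉ Z.X.D) (h : ¬ C Z u) : ∃ w ∉ Z.X.D', A Z.Y w = u := by
  by_contra hc
  push Not at hc
  exact h (C.base u hu hc)

theorem AY_not {w : Sq} (hw : w ∉ Z.X.D') : A Z.Y w ∉ Z.X.D := by
  have h1 : w ∉ Z.Y.D := by rw [Z.hD]; exact hw
  have h2 := (A_lev Z.Y h1).1
  rwa [Z.hD'] at h2

theorem AY_inj {v w : Sq} (hv : v ∉ Z.X.D') (hw : w ∉ Z.X.D') (h : A Z.Y v = A Z.Y w) : v = w :=
  A_inj Z.Y (by rw [Z.hD]; exact hv) (by rw [Z.hD]; exact hw) h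

theorem AY_open {w : Sq} (hw : w ∉ Z.X.D') (N : ℕ) : ∃ n, ∀ v, agr n (A Z.Y w) v →
    ∃ w' ∉ Z.X.D', agr N w w' ∧ A Z.Y w' = v := by
  obtain ⟨n, hn⟩ := A_open Z.Y (u := w) (by rw [Z.hD]; exact hw) N
  refine ⟨n, fun v hv => ?_⟩
  obtain ⟨w', h1, h2, h3⟩ := hn v hv
  exact ⟨w', by rw [← Z.hD]; exact h1, h2, h3⟩

theorem C_step_iff {u : Sq} (hu : u ∉ Z.X.D) : C Z (A Z.Y (A Z.X u)) ↔ C Z u := by
  constructor
  · intro h
    generalize hv : A Z.Y (A Z.X u) = v at h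
    cases h with
    | base _ _ h => exact absurd hv (h _ (A_lev Z.X hu).1)
    | step u' hu' =>
      have h1 := AY_inj Z (A_lev Z.X hu).1 (A_lev Z.X (C_not Z hu')).1 hv
      rw [A_inj Z.X hu (C_not Z hu') h1]
      exact hu'
  · exact C.step u

theorem C_open {u : Sq} (h : C Z u) : ∃ n, ∀ v, agr n u v → C Z v := by
  induction h with
  | base u hu h =>
    have h1 : ∃ n, ∀ v, agr n u v → ∀ w ∉ Z.Y.D, A Z.Y w ≠ v := by
      apply A_closed Z.Y
      · rw [Z.hD']; exact hu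
      · rw [Z.hD]; exact h
    obtain ⟨n, hn⟩ := h1
    refine ⟨max n (lev Z.X.D u + 1), fun v hv => C.base v ?_ ?_⟩
    · exact (lev_congr Z.X.cl Z.X.ne hu (hv.mono (le_max_right _ _))).1
    · intro w hw
      exact hn v (hv.mono (le_max_left _ _)) w (by rw [Z.hD]; exact hw)
  | step u hu ih =>
    obtain ⟨n, hn⟩ := ih
    obtain ⟨n1, h1⟩ := A_open Z.X (C_not Z hu) n
    obtain ⟨n2, h2⟩ := AY_open Z (A_lev Z.X (C_not Z hu)).1 n1
    refine ⟨n2, fun v hv => ?_⟩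
    obtain ⟨w', hw', h3, rfl⟩ := h2 v hv
    obtain ⟨u', hu', h4, rfl⟩ := h1 w' h3
    exact C.step u' (hn u' h4)

theorem C_closed : ∀ k : ℕ, ∀ u, u ∉ Z.X.D → u (lev Z.X.D u) = k → ¬ C Z u →
    ∃ n, ∀ v, agr n u v → ¬ C Z v := by
  intro k
  induction k using Nat.strong_induction_on with
  | _ k ih =>
    intro u hu hk hC
    obtain ⟨w, hw, rfl⟩ := notC Z hu hC
    by_cases hr : ∃ u1 ∉ Z.X.D, A Z.X u1 = w
    · obtain ⟨u1, hu1, rfl⟩ := hr
      have hlt : u1 (lev Z.X.D u1) < k := by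
        have h1 := A_label_lt Z.X hu1
        have h2 := A_label_lt Z.Y (u := A Z.X u1) (by rw [Z.hD]; exact hw)
        rw [Z.hD'] at h2
        rw [← Z.hD] at h1
        omega
      obtain ⟨n, hn⟩ := ih _ hlt u1 hu1 rfl (fun h => hC (C.step _ h))
      obtain ⟨n1, h1⟩ := A_open Z.X hu1 n
      obtain ⟨n2, h2⟩ := AY_open Z hw n1
      refine ⟨n2, fun v hv => ?_⟩
      obtain ⟨w', hw', h3, rfl⟩ := h2 v hv
      obtain ⟨u', hu', h4, rfl⟩ := h1 w' h3
      rw [C_step_iff Z hu']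
      exact hn u' h4
    · push Not at hr
      obtain ⟨n, hn⟩ := A_closed Z.X hw hr
      obtain ⟨n2, h2⟩ := AY_open Z hw n
      refine ⟨n2, fun v hv hCv => ?_⟩
      obtain ⟨w', hw', h3, rfl⟩ := h2 v hv
      generalize hv' : A Z.Y w' = v' at hCv
      cases hCv with
      | base _ _ h => exact absurd hv' (h _ hw')
      | step u' hu' =>
        have h4 := AY_inj Z hw' (A_lev Z.X (C_not Z hu')).1 hv'
        exact hn w' h3 u' (C_not Z hu') h4.symm

/-- the extension -/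
noncomputable def G (u : Sq) : Sq :=
  if u ∈ Z.X.D then Z.X.h u else if C Z u then A Z.X u else
    if h : ∃ w ∉ Z.X.D', A Z.Y w = u then h.choose else u

theorem G_on {u : Sq} (hu : u ∈ Z.X.D) : G Z u = Z.X.h u := if_pos hu

theorem G_C {u : Sq} (h : C Z u) : G Z u = A Z.X u := by
  rw [G, if_neg (C_not Z h), if_pos h]

theorem G_nC {u : Sq} (hu : u ∉ Z.X.D) (h : ¬ C Z u) : G Z u ∉ Z.X.D' ∧ A Z.Y (G Z u) = u := by
  have h1 := notC Z hu h
  rw [G, if_neg hu, if_neg h, dif_pos h1]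
  exact h1.choose_spec

theorem G_off {u : Sq} (hu : u ∉ Z.X.D) : G Z u ∉ Z.X.D' ∧ (G Z u = A Z.X u ∨ A Z.Y (G Z u) = u) := by
  by_cases h : C Z u
  · rw [G_C Z h]
    exact ⟨(A_lev Z.X hu).1, Or.inl rfl⟩
  · obtain ⟨h1, h2⟩ := G_nC Z hu h
    exact ⟨h1, Or.inr h2⟩

theorem G_injective : Function.Injective (G Z) := by
  intro u v h
  by_cases hu : u ∈ Z.X.D
  · by_cases hv : v ∈ Z.X.D
    · rw [G_on Z hu, G_on Z hv] at h
      rw [← Z.inv u hu, ← Z.inv v hv, h]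
    · have h1 := (G_off Z hv).1
      rw [← h, G_on Z hu] at h1
      exact absurd (Z.X.maps u hu) h1
  · by_cases hv : v ∈ Z.X.D
    · have h1 := (G_off Z hu).1
      rw [h, G_on Z hv] at h1
      exact absurd (Z.X.maps v hv) h1
    · by_cases hCu : C Z u
      · by_cases hCv : C Z v
        · rw [G_C Z hCu, G_C Z hCv] at h
          exact A_inj Z.X hu hv h
        · have h1 := (G_nC Z hv hCv).2
          rw [← h, G_C Z hCu] at h1
          exact absurd (h1 ▸ C.step u hCu) hCv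
      · by_cases hCv : C Z v
        · have h1 := (G_nC Z hu hCu).2
          rw [h, G_C Z hCv] at h1
          exact absurd (h1 ▸ C.step v hCv) hCu
        · rw [← (G_nC Z hu hCu).2, ← (G_nC Z hv hCv).2, h]

theorem G_surjective : Function.Surjective (G Z) := by
  intro w
  by_cases hw : w ∈ Z.X.D'
  · have h1 : w ∈ Z.Y.D := by rw [Z.hD]; exact hw
    have h2 := Z.Y.maps w h1
    rw [Z.hD'] at h2
    exact ⟨Z.Y.h w, by rw [G_on Z h2, Z.inv' w hw]⟩
  · by_cases hC : C Z (A Z.Y w)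
    · generalize hv : A Z.Y w = v at hC
      cases hC with
      | base _ _ h => exact absurd hv (h _ hw)
      | step u' hu' =>
        have h1 := AY_inj Z hw (A_lev Z.X (C_not Z hu')).1 hv
        exact ⟨u', by rw [G_C Z hu', h1]⟩
    · have h1 := G_nC Z (AY_not Z hw) hC
      exact ⟨A Z.Y w, AY_inj Z h1.1 hw h1.2⟩

theorem G_cont : Continuous (G Z) := by
  rw [continuous_iff_agr]
  intro u N
  by_cases hu : u ∈ Z.X.D
  · obtain ⟨n1, h1⟩ := Z.hc u hu N
    obtain ⟨n2, h2⟩ := KA Z.X Z.hc hu N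
    obtain ⟨n3, h3⟩ := KB Z hu N
    refine ⟨max n1 (max n2 n3), fun v hv => ?_⟩
    rw [G_on Z hu]
    by_cases hvD : v ∈ Z.X.D
    · rw [G_on Z hvD]
      exact h1 v hvD (hv.mono (by simp))
    · obtain ⟨h4, h5 | h5⟩ := G_off Z hvD
      · rw [h5]
        exact h2 v hvD (hv.mono (by simp))
      · apply h3 _ h4
        rw [h5]
        exact hv.mono (by simp)
  · by_cases hC : C Z u
    · obtain ⟨n1, h1⟩ := C_open Z hC
      obtain ⟨n2, h2⟩ := A_cont Z.X hu N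
      refine ⟨max n1 n2, fun v hv => ?_⟩
      rw [G_C Z hC, G_C Z (h1 v (hv.mono (by simp)))]
      exact (h2 v (hv.mono (by simp))).2
    · obtain ⟨n1, h1⟩ := C_closed Z _ u hu rfl hC
      obtain ⟨h2, h3⟩ := G_nC Z hu hC
      obtain ⟨n2, h4⟩ := AY_open Z h2 N
      obtain ⟨n3, h5⟩ := A_cont Z.X hu 0
      refine ⟨max n1 (max n2 n3), fun v hv => ?_⟩
      obtain ⟨w', hw', h6, h7⟩ := h4 v (by rw [h3]; exact hv.mono (by simp))
      have h8 := (h5 v (hv.mono (by simp))).1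
      obtain ⟨h9, h10⟩ := G_nC Z h8 (h1 v (hv.mono (by simp)))
      rw [AY_inj Z h9 hw' (h10.trans h7.symm)]
      exact h6

theorem G_inv_cont (g : Sq → Sq) (h1 : ∀ u, g (G Z u) = u) (h2 : ∀ w, G Z (g w) = w) :
    Continuous g := by
  have hD : ∀ w, w ∈ Z.X.D' → g w = Z.Y.h w := by
    intro w hw
    have h3 : w ∈ Z.Y.D := by rw [Z.hD]; exact hw
    have h4 := Z.Y.maps w h3
    rw [Z.hD'] at h4
    have h5 := G_on Z h4
    rw [Z.inv' w hw] at h5
    conv_lhs => rw [← h5]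
    exact h1 _
  have hoff : ∀ w, w ∉ Z.X.D' → g w ∉ Z.X.D ∧ (w = A Z.X (g w) ∨ A Z.Y w = g w) := by
    intro w hw
    have h3 : g w ∉ Z.X.D := by
      intro h
      apply hw
      rw [← h2 w, G_on Z h]
      exact Z.X.maps _ h
    refine ⟨h3, ?_⟩
    have h4 := (G_off Z h3).2
    rw [h2] at h4
    exact h4
  rw [continuous_iff_agr]
  intro w N
  by_cases hw : w ∈ Z.X.D'
  · have hwY : w ∈ Z.Y.D := by rw [Z.hD]; exact hw
    obtain ⟨n1, k1⟩ := Z.hc' w hw N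
    have hcY : ContOn Z.Y.D Z.Y.h := by rw [Z.hD]; exact Z.hc'
    obtain ⟨n2, k2⟩ := KA Z.Y hcY hwY N
    obtain ⟨n3, k3⟩ := KB Z.swap (d := w) hwY N
    refine ⟨max n1 (max n2 n3), fun v hv => ?_⟩
    rw [hD w hw]
    by_cases hvD : v ∈ Z.X.D'
    · rw [hD v hvD]
      exact k1 v hvD (hv.mono (by simp))
    · obtain ⟨h4, h5 | h5⟩ := hoff v hvD
      · apply k3 (g v)
        · show g v ∉ Z.Y.D'
          rw [Z.hD']; exact h4
        · show agr n3 w (A Z.X (g v))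
          rw [← h5]
          exact hv.mono (by simp)
      · rw [← h5]
        exact k2 v (by rw [Z.hD]; exact hvD) (hv.mono (by simp))
  · -- off D'
    obtain ⟨h4, h5 | h5⟩ := hoff w hw
    · by_cases hC : C Z (g w)
      · obtain ⟨n1, k1⟩ := C_open Z hC
        obtain ⟨n2, k2⟩ := A_open Z.X h4 (max n1 N)
        refine ⟨n2, fun v hv => ?_⟩
        obtain ⟨u', hu', k3, k4⟩ := k2 v (by rw [← h5]; exact hv)
        have k5 : G Z u' = v := by rw [G_C Z (k1 u' (k3.mono (by simp))), k4]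
        rw [← k5, h1]
        exact k3.mono (by simp)
      · obtain ⟨k1, k2⟩ := G_nC Z h4 hC
        rw [h2] at k2
        obtain ⟨n1, k3⟩ := C_closed Z _ (g w) h4 rfl hC
        obtain ⟨n2, k4⟩ := A_cont Z.Y (u := w) (by rw [Z.hD]; exact hw) (max n1 N)
        refine ⟨n2, fun v hv => ?_⟩
        obtain ⟨k5, k6⟩ := k4 v hv
        rw [Z.hD] at k5
        rw [k2] at k6
        have k7 : ¬ C Z (A Z.Y v) := k3 _ (k6.mono (by simp))
        have k8 := G_nC Z (AY_not Z k5) k7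
        have k9 : G Z (A Z.Y v) = v := AY_inj Z k8.1 k5 k8.2
        rw [← k9, h1]
        exact k6.mono (by simp)
    · by_cases hC : C Z (g w)
      · -- then w = A X (g w) too
        have h6 : w = A Z.X (g w) := by
          conv_lhs => rw [← h2 w]
          exact G_C Z hC
        obtain ⟨n1, k1⟩ := C_open Z hC
        obtain ⟨n2, k2⟩ := A_open Z.X h4 (max n1 N)
        refine ⟨n2, fun v hv => ?_⟩
        obtain ⟨u', hu', k3, k4⟩ := k2 v (by rw [← h6]; exact hv)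
        have k5 : G Z u' = v := by rw [G_C Z (k1 u' (k3.mono (by simp))), k4]
        rw [← k5, h1]
        exact k3.mono (by simp)
      · obtain ⟨n1, k3⟩ := C_closed Z _ (g w) h4 rfl hC
        obtain ⟨n2, k4⟩ := A_cont Z.Y (u := w) (by rw [Z.hD]; exact hw) (max n1 N)
        refine ⟨n2, fun v hv => ?_⟩
        obtain ⟨k5, k6⟩ := k4 v hv
        rw [Z.hD] at k5
        rw [h5] at k6
        have k7 : ¬ C Z (A Z.Y v) := k3 _ (k6.mono (by simp))
        have k8 := G_nC Z (AY_not Z k5) k7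
        have k9 : G Z (A Z.Y v) = v := AY_inj Z k8.1 k5 k8.2
        rw [← k9, h1]
        exact k6.mono (by simp)

theorem G_F1 {u : Sq} (hu : u ∉ Z.X.D) : F0 u (G Z u) := by
  obtain ⟨h1, h2 | h2⟩ := G_off Z hu
  · rw [h2]; exact A_F1 Z.X hu
  · have h3 := A_F1 Z.Y (u := G Z u) (by rw [Z.hD]; exact h1)
    rw [h2] at h3
    exact h3.symm

/-- the extension lemma -/
theorem ext : ∃ g : Sq ≃ₜ Sq, (∀ u ∈ Z.X.D, g u = Z.X.h u) ∧ ∀ u ∉ Z.X.D, F0 u (g u) := by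
  let e := Equiv.ofBijective (G Z) ⟨G_injective Z, G_surjective Z⟩
  refine ⟨⟨e, G_cont Z, G_inv_cont Z e.symm (fun u => e.symm_apply_apply u)
    (fun w => e.apply_symm_apply w)⟩, fun u hu => G_on Z hu, fun u hu => G_F1 Z hu⟩

end Pool.Agent.H84R6
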