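import Pool.Agent.H84R6.Ext

set_option autoImplicit false

namespace Pool.Agent.H84R6

open Classical

/-! ### swaps -/

/-- replace the first `n` symbols by those of `w` -/
def rep (n : ℕ) (w : List ℕ) (u : Sq) : Sq := fun i => if i < n then w.getD i 0 else u i

theorem rep_pre (n : ℕ) (u v : Sq) (h : ∀ i, n ≤ i → u i = v i) : rep n (pre u n) v = u := by
  funext i
  rw [rep]
  split_ifs with h1
  · rw [List.getD_eq_getElem _ _ (by simpa using h1), getElem_pre]
  · exact (h i (by omega)).symm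

theorem pre_rep (n : ℕ) (w : List ℕ) (hw : w.length = n) (u : Sq) : pre (rep n w u) n = w := by
  apply List.ext_getElem
  · simp [hw]
  · intro i h1 h2
    rw [getElem_pre, rep, if_pos (by omega), List.getD_eq_getElem _ _ h2]

/-- the swap of the cylinders of `s` and `t` -/
noncomputable def sw (s t : List ℕ) (u : Sq) : Sq :=
  rep s.length (Equiv.swap s t (pre u s.length)) u

theorem swap_len {s t : List ℕ} (h : s.length = t.length) {w : List ℕ} (hw : w.length = s.length) :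
    (Equiv.swap s t w).length = s.length := by
  rw [Equiv.swap_apply_def]
  split_ifs
  · exact h.symm
  · rfl
  · exact hw

theorem sw_sw {s t : List ℕ} (h : s.length = t.length) (u : Sq) : sw s t (sw s t u) = u := by
  have h1 : pre (sw s t u) s.length = Equiv.swap s t (pre u s.length) :=
    pre_rep _ _ (swap_len h (by simp)) u
  rw [sw, h1, Equiv.swap_apply_self]
  apply rep_pre
  intro i hi
  rw [sw, rep, if_neg (by omega)]

theorem sw_cont (s t : List ℕ) : Continuous (sw s t) := by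
  rw [continuous_iff_agr]
  intro u N
  refine ⟨s.length + N, fun v hv i hi => ?_⟩
  rw [sw, sw, pre_eq_iff.2 (hv.mono (by omega)), rep, rep]
  split_ifs
  · rfl
  · exact hv i (by omega)

/-- homeomorphisms generating `F0` -/
theorem swaps (s t : List ℕ) : ∃ g : Sq ≃ₜ Sq, (∀ u, F0 u (g u)) ∧
    ∀ (u v : Sq) (n : ℕ), pre u n = s → pre v n = t → (∀ i, n ≤ i → u i = v i) →
      S u n = S v n → g u = v := by
  by_cases h : s.length = t.length ∧ ∃ (u v : Sq), pre u s.length = s ∧ pre v s.length = t ∧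
      S u s.length = S v s.length
  · obtain ⟨h1, a, b, ha, hb, hab⟩ := h
    let e : Equiv.Perm Sq := ⟨sw s t, sw s t, sw_sw h1, sw_sw h1⟩
    refine ⟨⟨e, sw_cont s t, sw_cont s t⟩, fun u => ?_, ?_⟩
    · show F0 u (sw s t u)
      refine ⟨s.length, fun i hi => ?_, ?_⟩
      · rw [sw, rep, if_neg (by omega)]
      · have h2 : pre (sw s t u) s.length = Equiv.swap s t (pre u s.length) :=
          pre_rep _ _ (swap_len h1 (by simp)) u
        rw [Equiv.swap_apply_def] at h2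
        split_ifs at h2 with h3 h4
        · have e1 : S u s.length = S a s.length := S_congr (pre_eq_iff.1 (h3.trans ha.symm))
          have e2 : S (sw s t u) s.length = S b s.length :=
            S_congr (pre_eq_iff.1 (h2.trans hb.symm))
          rw [e1, e2, hab]
        · have e1 : S u s.length = S b s.length := S_congr (pre_eq_iff.1 (h4.trans hb.symm))
          have e2 : S (sw s t u) s.length = S a s.length :=
            S_congr (pre_eq_iff.1 (h2.trans ha.symm))
          rw [e1, e2, hab]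
        · exact (S_congr (pre_eq_iff.1 h2)).symm
    · intro u v n hu hv huv _
      show sw s t u = v
      have hn : s.length = n := by rw [← hu]; simp
      rw [sw, hn, hu, Equiv.swap_apply_left, ← hv]
      exact rep_pre _ _ _ (fun i hi => (huv i hi).symm)
  · refine ⟨Homeomorph.refl _, fun u => F0.refl u, ?_⟩
    intro u v n hu hv huv hS
    exfalso
    apply h
    have hn : s.length = n := by rw [← hu]; simp
    have hn' : t.length = n := by rw [← hv]; simp
    exact ⟨by rw [hn, hn'], u, v, by rw [hn]; exact hu, by rw [hn]; exact hv, by rw [hn]; exact hS⟩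

/-- the input of the group construction -/
structure Sys (C : Type) where
  jj : C → Sq
  odd : ∀ x, Odd' (jj x)
  inj : Function.Injective jj
  P : ℕ → C → C → Prop
  uniq : ∀ e x y y', P e x y → P e x y' → y = y'
  closed : ∀ e i, IsClosed {u | ∃ x y, jj x = u ∧ P e x y ∧ P i y x}
  cont : ∀ e i x y, P e x y → P i y x → ∀ N, ∃ n, ∀ x' y', P e x' y' → P i y' x' →
    agr n (jj x) (jj x') → agr N (jj y) (jj y')
  trans : ∀ x y z, (∃ e i, P e x y ∧ P i y x) → (∃ e i, P e y z ∧ P i z y) →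
    ∃ e i, P e x z ∧ P i z x

variable {C : Type} (Y : Sys C)

def Sys.E (x y : C) : Prop := ∃ e i, Y.P e x y ∧ Y.P i y x

theorem Sys.E_symm {x y : C} (h : Y.E x y) : Y.E y x := by
  obtain ⟨e, i, h1, h2⟩ := h; exact ⟨i, e, h2, h1⟩

/-- the domain of `h e i` -/
def Sys.DD (e i : ℕ) : Set Sq := {u | ∃ x y, Y.jj x = u ∧ Y.P e x y ∧ Y.P i y x}

noncomputable def Sys.hh (e i : ℕ) (u : Sq) : Sq :=
  if h : ∃ x y, Y.jj x = u ∧ Y.P e x y ∧ Y.P i y x then Y.jj h.choose_spec.choose else u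

theorem Sys.hh_eq {e i : ℕ} {x y : C} (h1 : Y.P e x y) (h2 : Y.P i y x) :
    Y.hh e i (Y.jj x) = Y.jj y := by
  have h : ∃ x' y', Y.jj x' = Y.jj x ∧ Y.P e x' y' ∧ Y.P i y' x' := ⟨x, y, rfl, h1, h2⟩
  rw [Sys.hh, dif_pos h]
  have key : ∀ x' y', Y.jj x' = Y.jj x → Y.P e x' y' → Y.jj y' = Y.jj y := by
    intro x' y' h3 h4
    have h5 := Y.inj h3
    subst h5
    rw [Y.uniq _ _ _ _ h4 h1]
  obtain ⟨h3, h4, -⟩ := h.choose_spec.choose_spec
  exact key _ _ h3 h4

noncomputable def Sys.dat (e i : ℕ) (hne : (Y.DD e i).Nonempty) : Dat where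
  D := Y.DD e i
  D' := Y.DD i e
  h := Y.hh e i
  cl := Y.closed e i
  cl' := Y.closed i e
  ne := hne
  odd := by
    rintro d ⟨x, y, rfl, -, -⟩ k
    exact Y.odd x k
  odd' := by
    rintro d ⟨x, y, rfl, -, -⟩ k
    exact Y.odd x k
  maps := by
    rintro d ⟨x, y, rfl, h1, h2⟩
    rw [Y.hh_eq h1 h2]
    exact ⟨y, x, rfl, h2, h1⟩

theorem Sys.ne_swap {e i : ℕ} (h : (Y.DD e i).Nonempty) : (Y.DD i e).Nonempty := by
  obtain ⟨u, x, y, rfl, h1, h2⟩ := h
  exact ⟨Y.jj y, y, x, rfl, h2, h1⟩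

theorem Sys.contOn (e i : ℕ) : ContOn (Y.DD e i) (Y.hh e i) := by
  rintro d ⟨x, y, rfl, h1, h2⟩ N
  obtain ⟨n, hn⟩ := Y.cont e i x y h1 h2 N
  refine ⟨n, ?_⟩
  rintro d' ⟨x', y', rfl, h3, h4⟩ h5
  rw [Y.hh_eq h1 h2, Y.hh_eq h3 h4]
  exact hn x' y' h3 h4 h5

noncomputable def Sys.dat2 (e i : ℕ) (hne : (Y.DD e i).Nonempty) : Dat2 where
  X := Y.dat e i hne
  Y := Y.dat i e (Y.ne_swap hne)
  hD := rfl
  hD' := rfl
  inv := by
    rintro d ⟨x, y, rfl, h1, h2⟩
    show Y.hh i e (Y.hh e i (Y.jj x)) = Y.jj x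
    rw [Y.hh_eq h1 h2, Y.hh_eq h2 h1]
  inv' := by
    rintro d ⟨x, y, rfl, h1, h2⟩
    show Y.hh e i (Y.hh i e (Y.jj x)) = Y.jj x
    rw [Y.hh_eq h1 h2, Y.hh_eq h2 h1]
  hc := Y.contOn e i
  hc' := Y.contOn i e

/-- the target orbit relation -/
def Sys.R (u v : Sq) : Prop := F0 u v ∨ ∃ x y, F0 u (Y.jj x) ∧ F0 v (Y.jj y) ∧ Y.E x y

theorem Sys.R_refl (u : Sq) : Y.R u u := Or.inl (F0.refl u)

theorem Sys.R_symm {u v : Sq} (h : Y.R u v) : Y.R v u := by
  rcases h with h | ⟨x, y, h1, h2, h3⟩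
  · exact Or.inl h.symm
  · exact Or.inr ⟨y, x, h2, h1, Y.E_symm h3⟩

theorem Sys.R_trans {u v w : Sq} (h : Y.R u v) (h' : Y.R v w) : Y.R u w := by
  rcases h with h | ⟨x, y, h1, h2, h3⟩
  · rcases h' with h' | ⟨x, y, h1, h2, h3⟩
    · exact Or.inl (h.trans h')
    · exact Or.inr ⟨x, y, h.trans h1, h2, h3⟩
  · rcases h' with h' | ⟨x', y', h1', h2', h3'⟩
    · exact Or.inr ⟨x, y, h1, h'.symm.trans h2, h3⟩
    · have h4 : Y.jj y = Y.jj x' := F0_odd (Y.odd y) (Y.odd x') (h2.symm.trans h1')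
      have h5 := Y.inj h4
      rw [← h5] at h3'
      exact Or.inr ⟨x, y', h1, h2', Y.trans _ _ _ h3 h3'⟩

/-- the homeomorphisms from the extension lemma -/
theorem Sys.exts (e i : ℕ) : ∃ g : Sq ≃ₜ Sq, (∀ u, Y.R u (g u)) ∧
    ∀ x y, Y.P e x y → Y.P i y x → g (Y.jj x) = Y.jj y := by
  by_cases hne : (Y.DD e i).Nonempty
  · obtain ⟨g, h1, h2⟩ := ext (Y.dat2 e i hne)
    refine ⟨g, fun u => ?_, fun x y h3 h4 => ?_⟩
    · by_cases hu : u ∈ Y.DD e i
      · have h3 := h1 u hu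
        obtain ⟨x, y, rfl, h4, h5⟩ := hu
        right
        refine ⟨x, y, F0.refl _, ?_, e, i, h4, h5⟩
        rw [h3]
        show F0 (Y.hh e i (Y.jj x)) (Y.jj y)
        rw [Y.hh_eq h4 h5]
        exact F0.refl _
      · exact Or.inl (h2 u hu)
    · rw [h1 _ ⟨x, y, rfl, h3, h4⟩]
      exact Y.hh_eq h3 h4
  · refine ⟨Homeomorph.refl _, fun u => Y.R_refl u, fun x y h3 h4 => ?_⟩
    exact absurd ⟨Y.jj x, x, y, rfl, h3, h4⟩ hne

theorem Sys.group : ∃ (G : Type) (_ : Group G) (_ : Countable G) (_ : MulAction G Sq),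
    (∀ g : G, Continuous (fun y : Sq => g • y)) ∧ ∀ u v, (∃ g : G, g • u = v) ↔ Y.R u v := by
  choose g1 h1 h1' using swaps
  choose g2 h2 h2' using Y.exts
  let gen : (List ℕ × List ℕ) ⊕ (ℕ × ℕ) → (Sq ≃ₜ Sq) := fun i => match i with
    | Sum.inl p => g1 p.1 p.2
    | Sum.inr p => g2 p.1 p.2
  have hgen : ∀ i u, Y.R u (gen i u) := by
    rintro (⟨s, t⟩ | ⟨e, i⟩) u
    · exact Or.inl (h1 s t u)
    · exact h2 e i u
  let φ : FreeGroup ((List ℕ × List ℕ) ⊕ (ℕ × ℕ)) →* (Sq ≃ₜ Sq) := FreeGroup.lift gen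
  have hφ : ∀ g u, Y.R u (φ g u) := by
    intro g
    induction g using FreeGroup.induction_on with
    | C1 => intro u; rw [map_one]; exact Y.R_refl u
    | of i => intro u; simp only [φ, FreeGroup.lift_apply_of]; exact hgen i u
    | inv_of i _ =>
      intro u
      rw [map_inv]
      simp only [φ, FreeGroup.lift_apply_of]
      have h3 := hgen i ((gen i)⁻¹ u)
      have h4 : gen i ((gen i)⁻¹ u) = u := (gen i).apply_symm_apply u
      rw [h4] at h3
      exact Y.R_symm h3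
    | mul a b ha hb =>
      intro u
      rw [map_mul]
      exact Y.R_trans (hb u) (ha _)
  let act : MulAction (FreeGroup ((List ℕ × List ℕ) ⊕ (ℕ × ℕ))) Sq :=
    { smul := fun g u => φ g u
      one_smul := fun u => by show φ 1 u = u; rw [map_one]; rfl
      mul_smul := fun a b u => by show φ (a * b) u = φ a (φ b u); rw [map_mul]; rfl }
  refine ⟨FreeGroup ((List ℕ × List ℕ) ⊕ (ℕ × ℕ)), inferInstance, inferInstance, act, ?_, ?_⟩
  · intro g
    exact (φ g).continuous
  · intro u v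
    constructor
    · rintro ⟨g, rfl⟩
      exact hφ g u
    · have hF : ∀ u v, F0 u v → ∃ g, φ g u = v := by
        rintro u v ⟨n, h3, h4⟩
        refine ⟨FreeGroup.of (Sum.inl (pre u n, pre v n)), ?_⟩
        simp only [φ, FreeGroup.lift_apply_of]
        exact h1' _ _ u v n rfl rfl h3 h4
      rintro (h | ⟨x, y, h3, h4, e, i, h5, h6⟩)
      · exact hF u v h
      · obtain ⟨a, ha⟩ := hF _ _ h3
        obtain ⟨b, hb⟩ := hF _ _ h4.symm
        refine ⟨b * (FreeGroup.of (Sum.inr (e, i)) * a), ?_⟩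
        show φ (b * (FreeGroup.of (Sum.inr (e, i)) * a)) u = v
        rw [map_mul, map_mul]
        show φ b (φ (FreeGroup.of (Sum.inr (e, i))) (φ a u)) = v
        rw [ha]
        simp only [φ, FreeGroup.lift_apply_of] at hb ⊢
        have h7 : gen (Sum.inr (e, i)) (Y.jj x) = Y.jj y := h2' e i x y h5 h6
        rw [h7]
        exact hb

end Pool.Agent.H84R6
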