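import Pool.Agent.H84R6.Comp
import Pool.Agent.H84R6.Grp

set_option autoImplicit false

namespace Pool.Agent.H84R6

open Encodable Classical

abbrev Ca := ℕ → Bool

/-- the oracle of a real -/
def o (x : Ca) : Sq := fun n => (x n).toNat

theorem o_inj {x y : Ca} {n : ℕ} (h : o x n = o y n) : x n = y n := by
  unfold o at h
  cases hx : x n <;> cases hy : y n <;> simp [hx, hy] at h ⊢

/-- first convergence at stage `k` with value `v` -/
def hit (x : Ca) (a k v : ℕ) : Prop :=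
  GG (pre (o x) k) a.unpair.1 a.unpair.2 = some v ∧
    ∀ j < k, GG (pre (o x) j) a.unpair.1 a.unpair.2 = none

theorem hit_agr {x x' : Ca} {a k v : ℕ} (h : hit x a k v) (h' : agr k (o x) (o x')) :
    hit x' a k v := by
  refine ⟨?_, fun j hj => ?_⟩
  · rw [← pre_eq_iff.2 h']; exact h.1
  · rw [← pre_eq_iff.2 (h'.mono hj.le)]; exact h.2 j hj

theorem hit_unique {x : Ca} {a k v k' v' : ℕ} (h : hit x a k v) (h' : hit x a k' v') :
    k = k' ∧ v = v' := by
  have h1 : k = k' := by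
    rcases lt_trichotomy k k' with h2 | h2 | h2
    · have := h'.2 k h2
      rw [h.1] at this
      exact absurd this (by simp)
    · exact h2
    · have := h.2 k' h2
      rw [h'.1] at this
      exact absurd this (by simp)
  subst h1
  have h2 := h.1
  rw [h'.1] at h2
  exact ⟨rfl, (Option.some.inj h2).symm⟩

theorem hit_ph {x : Ca} {a k v : ℕ} (h : hit x a k v) : ph a.unpair.1 (o x) a.unpair.2 v :=
  ⟨k, h.1⟩

theorem ph_hit {x : Ca} {a v : ℕ} (h : ph a.unpair.1 (o x) a.unpair.2 v) : ∃ k, hit x a k v := by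
  have hex : ∃ k, GG (pre (o x) k) a.unpair.1 a.unpair.2 ≠ none := by
    obtain ⟨k, hk⟩ := h
    exact ⟨k, by rw [hk]; simp⟩
  obtain ⟨w, hw⟩ := Option.ne_none_iff_exists'.1 (Nat.find_spec hex)
  have h1 : hit x a (Nat.find hex) w := by
    refine ⟨hw, fun j hj => ?_⟩
    have := Nat.find_min hex hj
    simpa using this
  have h2 := ph_unique h (hit_ph h1)
  subst h2
  exact ⟨_, h1⟩

noncomputable def J (x : Ca) (a : ℕ) : ℕ :=
  if h : ∃ k v, hit x a k v then Nat.pair h.choose h.choose_spec.choose + 1 else 0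

theorem J_hit {x : Ca} {a k v : ℕ} : J x a = Nat.pair k v + 1 ↔ hit x a k v := by
  by_cases h : ∃ k v, hit x a k v
  · rw [J, dif_pos h]
    have h1 := h.choose_spec.choose_spec
    constructor
    · intro h2
      have h3 : Nat.pair h.choose h.choose_spec.choose = Nat.pair k v := by omega
      obtain ⟨h4, h5⟩ := Nat.pair_eq_pair.1 h3
      rw [← h4, ← h5]
      exact h1
    · intro h2
      obtain ⟨h3, h4⟩ := hit_unique h1 h2
      rw [← h4]
      congr 2
  · rw [J, dif_neg h]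
    constructor
    · intro h2; omega
    · intro h2; exact absurd ⟨k, v, h2⟩ h

theorem J_zero {x : Ca} {a : ℕ} : J x a = 0 ↔ ∀ k v, ¬ hit x a k v := by
  constructor
  · intro h k v hk
    rw [J_hit.2 hk] at h
    omega
  · intro h
    rw [J, dif_neg]
    rintro ⟨k, v, hk⟩
    exact h k v hk

theorem J_cases (x : Ca) (a : ℕ) : J x a = 0 ∨ ∃ k v, J x a = Nat.pair k v + 1 := by
  by_cases h : ∃ k v, hit x a k v
  · obtain ⟨k, v, h⟩ := h
    exact Or.inr ⟨k, v, J_hit.2 h⟩
  · left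
    rw [J_zero]
    intro k v hk
    exact h ⟨k, v, hk⟩

/-- the code of the identity -/
noncomputable def idc : ℕ := idcode.choose

theorem ph_idc (g : Sq) (n v : ℕ) : ph idc g n v ↔ g n = v := idcode.choose_spec g n v

theorem hit_id (x : Ca) (n : ℕ) : ∃ k, hit x (Nat.pair idc n) k (o x n) := by
  apply ph_hit
  rw [Nat.unpair_pair]
  exact (ph_idc _ _ _).2 rfl

/-- agreement of `J` at the identity code gives agreement of the reals -/
theorem eq_of_J_id {x x' : Ca} {n : ℕ} (h : J x (Nat.pair idc n) = J x' (Nat.pair idc n)) :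
    o x n = o x' n := by
  obtain ⟨k, hk⟩ := hit_id x n
  obtain ⟨k', hk'⟩ := hit_id x' n
  rw [J_hit.2 hk, J_hit.2 hk'] at h
  have h1 : Nat.pair k (o x n) = Nat.pair k' (o x' n) := by omega
  exact (Nat.pair_eq_pair.1 h1).2

noncomputable def jj (x : Ca) : Sq := fun a => 2 * J x a + 1

theorem jj_eq {x x' : Ca} {a : ℕ} (h : jj x a = jj x' a) : J x a = J x' a := by
  unfold jj at h; omega

theorem jj_odd (x : Ca) : Odd' (jj x) := by
  intro i; unfold jj; omega

theorem jj_inj : Function.Injective jj := by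
  intro x x' h
  funext n
  apply o_inj
  apply eq_of_J_id
  apply jj_eq
  rw [h]

/-- `X` is closed -/
theorem X_closed (u : Sq) (h : ∀ n, ∃ x, agr n u (jj x)) : ∃ x, jj x = u := by
  choose x hx using h
  -- the limit
  let b : ℕ → ℕ := fun m => Nat.pair idc m + 1
  let z : Ca := fun m => x (b m) m
  have hz : ∀ m n, b m ≤ n → o (x n) m = o z m := by
    intro m n hn
    have h3 : o (x n) m = o (x (b m)) m := by
      apply eq_of_J_id
      apply jj_eq
      rw [← hx n _ (lt_of_lt_of_le (Nat.lt_succ_self _) hn), ← hx (b m) _ (Nat.lt_succ_self _)]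
    exact h3
  have hz' : ∀ k, ∃ N, ∀ n, N ≤ n → agr k (o (x n)) (o z) := by
    intro k
    obtain ⟨N, hN⟩ := Pool.Agent.Helper760.OracleNF.exists_unif k (fun m N => b m ≤ N)
      (fun j k k' h h' => le_trans h' h) (fun j _ => ⟨b j, le_rfl⟩)
    exact ⟨N, fun n hn m hm => hz m n (le_trans (hN m hm) hn)⟩
  refine ⟨z, ?_⟩
  funext a
  by_cases hc : ∃ k v, hit z a k v
  · obtain ⟨k, v, hk⟩ := hc
    obtain ⟨N, hN⟩ := hz' k
    have h1 := hit_agr hk (hN (max N (a + 1)) (le_max_left _ _)).symm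
    rw [hx (max N (a + 1)) a (by omega)]
    show 2 * J z a + 1 = 2 * J (x (max N (a + 1))) a + 1
    rw [J_hit.2 hk, J_hit.2 h1]
  · have h0 : J z a = 0 := J_zero.2 (fun k v hk => hc ⟨k, v, hk⟩)
    rcases J_cases (x (a + 1)) a with h1 | ⟨k, v, h1⟩
    · rw [hx (a + 1) a (by omega)]
      show 2 * J z a + 1 = 2 * J (x (a + 1)) a + 1
      rw [h0, h1]
    · exfalso
      obtain ⟨N, hN⟩ := hz' k
      have h2 : jj (x (max N (a + 1))) a = jj (x (a + 1)) a := by
        rw [← hx _ a (by omega), ← hx _ a (by omega)]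
      have h3 := jj_eq h2
      rw [h1, J_hit] at h3
      exact hc ⟨k, v, hit_agr h3 (hN _ (le_max_left _ _))⟩

/-- `y` is computed from `x` by the `e`-th functional -/
def P (e : ℕ) (x y : Ca) : Prop := ∀ n, ph e (o x) n (o y n)

theorem P_uniq (e : ℕ) (x y y' : Ca) (h : P e x y) (h' : P e x y') : y = y' := by
  funext n
  exact o_inj (ph_unique (h n) (h' n))

theorem P_J {e : ℕ} {x y : Ca} (h : P e x y) (m : ℕ) :
    ∃ k, J x (Nat.pair e m) = Nat.pair k (o y m) + 1 := by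
  have h1 : ph (Nat.pair e m).unpair.1 (o x) (Nat.pair e m).unpair.2 (o y m) := by
    rw [Nat.unpair_pair]; exact h m
  obtain ⟨k, hk⟩ := ph_hit h1
  exact ⟨k, J_hit.2 hk⟩

theorem ph_of_J {e : ℕ} {x : Ca} {m k v : ℕ} (h : J x (Nat.pair e m) = Nat.pair k v + 1) :
    ph e (o x) m v := by
  have := hit_ph (J_hit.1 h)
  rwa [Nat.unpair_pair] at this

theorem D_closed (e i : ℕ) : IsClosed {u | ∃ x y, jj x = u ∧ P e x y ∧ P i y x} := by
  rw [isClosed_iff_agr]
  intro u hu
  by_contra hc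
  push Not at hc
  have h1 : ∃ x, jj x = u := by
    apply X_closed
    intro n
    obtain ⟨v, hv, x, y, rfl, -, -⟩ := hc n
    exact ⟨x, hv⟩
  obtain ⟨x, rfl⟩ := h1
  obtain ⟨c, hcomp⟩ := comp e i
  have h2 : ∀ m, ∃ b : Bool, ph e (o x) m b.toNat := by
    intro m
    obtain ⟨v, hv, x', y', rfl, h3, h4⟩ := hc (Nat.pair e m + 1)
    obtain ⟨k, hk⟩ := P_J h3 m
    rw [← jj_eq (hv _ (Nat.lt_succ_self _))] at hk
    exact ⟨y' m, ph_of_J hk⟩
  choose y hy using h2
  apply hu
  refine ⟨x, y, rfl, hy, ?_⟩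
  intro m
  obtain ⟨v, hv, x', y', rfl, h3, h4⟩ := hc (Nat.pair c m + 1 + (Nat.pair idc m + 1))
  have h5 : ph c (o x') m (o x' m) := (hcomp _ _ h3 m _).2 (h4 m)
  have h6 : ph (Nat.pair c m).unpair.1 (o x') (Nat.pair c m).unpair.2 (o x' m) := by
    rw [Nat.unpair_pair]; exact h5
  obtain ⟨k, hk⟩ := ph_hit h6
  have h7 := J_hit.2 hk
  rw [← jj_eq (hv _ (by omega))] at h7
  have h8 : o x m = o x' m := eq_of_J_id (jj_eq (hv _ (by omega)))
  rw [← h8] at h7
  exact (hcomp (o x) (o y) hy m _).1 (ph_of_J h7)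

theorem unif (N : ℕ) (Q : ℕ → Ca → Ca → Prop) (R : Ca → Ca → Prop) (u : Sq)
    (h : ∀ a < N, ∃ n, ∀ x' y', R x' y' → agr n u (jj x') → Q a x' y') :
    ∃ n, ∀ x' y', R x' y' → agr n u (jj x') → ∀ a < N, Q a x' y' := by
  obtain ⟨K, hK⟩ := Pool.Agent.Helper760.OracleNF.exists_unif N
    (fun a n => ∀ x' y', R x' y' → agr n u (jj x') → Q a x' y')
    (fun j k k' hk hh x' y' h1 h2 => hh x' y' h1 (h2.mono hk)) h
  exact ⟨K, fun x' y' h1 h2 a ha => hK a ha x' y' h1 h2⟩

theorem h_cont (e i : ℕ) (x y : Ca) (h : P e x y) (_h' : P i y x) (N : ℕ) :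
    ∃ n, ∀ x' y', P e x' y' → P i y' x' → agr n (jj x) (jj x') → agr N (jj y) (jj y') := by
  -- first: agreement of the reals
  have h1 : ∀ M, ∃ n, ∀ x' y', P e x' y' → agr n (jj x) (jj x') → ∀ m < M, o y m = o y' m := by
    intro M
    apply unif M (fun m _ y' => o y m = o y' m) (fun x' y' => P e x' y')
    intro m _
    refine ⟨Nat.pair e m + 1, fun x' y' h3 h4 => ?_⟩
    obtain ⟨k, hk⟩ := P_J h m
    obtain ⟨k', hk'⟩ := P_J h3 m
    rw [← jj_eq (h4 _ (Nat.lt_succ_self _)), hk] at hk'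
    have h5 : Nat.pair k (o y m) = Nat.pair k' (o y' m) := by omega
    exact (Nat.pair_eq_pair.1 h5).2
  have h2 : ∃ n, ∀ x' y', P e x' y' → agr n (jj x) (jj x') → ∀ a < N, jj y a = jj y' a := by
    apply unif N (fun a _ y' => jj y a = jj y' a) (fun x' y' => P e x' y')
    intro a _
    by_cases hc : ∃ k v, hit y a k v
    · obtain ⟨k, v, hk⟩ := hc
      obtain ⟨n, hn⟩ := h1 k
      refine ⟨n, fun x' y' h3 h4 => ?_⟩
      have h5 := hit_agr hk (hn x' y' h3 h4)
      show 2 * J y a + 1 = 2 * J y' a + 1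
      rw [J_hit.2 hk, J_hit.2 h5]
    · have h0 : J y a = 0 := J_zero.2 (fun k v hk => hc ⟨k, v, hk⟩)
      obtain ⟨c, hcomp⟩ := comp e a.unpair.1
      refine ⟨Nat.pair c a.unpair.2 + 1, fun x' y' h3 h4 => ?_⟩
      have h5 : J x (Nat.pair c a.unpair.2) = 0 := by
        rw [J_zero]
        intro k v hk
        have h6 := hit_ph hk
        rw [Nat.unpair_pair] at h6
        obtain ⟨k', hk'⟩ := ph_hit ((hcomp _ _ h _ _).1 h6)
        exact hc ⟨k', v, hk'⟩
      have h6 : J y' a = 0 := by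
        rw [J_zero]
        intro k v hk
        have h7 := (hcomp _ _ h3 _ _).2 (hit_ph hk)
        have h8 : ph (Nat.pair c a.unpair.2).unpair.1 (o x') (Nat.pair c a.unpair.2).unpair.2 v := by
          rw [Nat.unpair_pair]; exact h7
        obtain ⟨k', hk'⟩ := ph_hit h8
        have h9 := J_hit.2 hk'
        rw [← jj_eq (h4 _ (Nat.lt_succ_self _)), h5] at h9
        omega
      show 2 * J y a + 1 = 2 * J y' a + 1
      rw [h0, h6]
  obtain ⟨n, hn⟩ := h2
  exact ⟨n, fun x' y' h3 _ h5 => hn x' y' h3 h5⟩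

theorem P_trans {e e' : ℕ} {x y z : Ca} (h : P e x y) (h' : P e' y z) : ∃ e'', P e'' x z := by
  obtain ⟨c, hc⟩ := comp e e'
  exact ⟨c, fun n => (hc _ _ h n _).2 (h' n)⟩

noncomputable def sys : Sys Ca where
  jj := jj
  odd := jj_odd
  inj := jj_inj
  P := P
  uniq := P_uniq
  closed := D_closed
  cont := h_cont
  trans := by
    rintro x y z ⟨e, i, h1, h2⟩ ⟨e', i', h3, h4⟩
    obtain ⟨a, ha⟩ := P_trans h1 h3
    obtain ⟨b, hb⟩ := P_trans h4 h2
    exact ⟨a, b, ha, hb⟩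

end Pool.Agent.H84R6
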