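import Pool.Agent.H84R6.Psi
import Pool.Agent.H84R6.Csb

set_option autoImplicit false

namespace Pool.Agent.H84R6

open Encodable Classical Set

/-! ### measurability tools -/

theorem meas_pre {α β : Type} [MeasurableSpace α] [Countable α] [MeasurableSingletonClass α]
    [Inhabited α] [MeasurableSpace β] (f : (ℕ → α) → β) (n : ℕ)
    (h : ∀ a b, (∀ i < n, a i = b i) → f a = f b) : Measurable f := by
  let res : (ℕ → α) → (Fin n → α) := fun a i => a i
  let ext : (Fin n → α) → (ℕ → α) := fun w i => if h : i < n then w ⟨i, h⟩ else default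
  have h1 : f = (fun w => f (ext w)) ∘ res := by
    funext a
    apply h
    intro i hi
    show a i = if h : i < n then a i else default
    rw [dif_pos hi]
  rw [h1]
  exact (measurable_of_countable _).comp (measurable_pi_lambda _ fun i => measurable_pi_apply _)

theorem ms_pre {α : Type} [MeasurableSpace α] [Countable α] [MeasurableSingletonClass α]
    [Inhabited α] (Q : (ℕ → α) → Prop) (n : ℕ)
    (h : ∀ a b, (∀ i < n, a i = b i) → Q a → Q b) : MeasurableSet {a | Q a} := by
  rw [measurableSet_setOfPred]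
  exact meas_pre Q n (fun a b hab => propext ⟨h a b hab, h b a (fun i hi => (hab i hi).symm)⟩)

theorem meas_sel {X Y : Type} [MeasurableSpace X] [MeasurableSpace Y] {N : X → ℕ}
    (hN : Measurable N) {f : ℕ → X → Y} (hf : ∀ e, Measurable (f e)) :
    Measurable (fun x => f (N x) x) := by
  intro s hs
  have : (fun x => f (N x) x) ⁻¹' s = ⋃ e, (N ⁻¹' {e} ∩ (f e) ⁻¹' s) := by
    ext x
    simp only [mem_preimage, mem_iUnion, mem_inter_iff, mem_singleton_iff]
    constructor
    · intro h; exact ⟨N x, rfl, h⟩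
    · rintro ⟨e, rfl, h⟩; exact h
  rw [this]
  exact MeasurableSet.iUnion fun e => (hN (measurableSet_singleton e)).inter (hf e hs)

theorem agr_o {x y : Ca} {k : ℕ} (h : ∀ i < k, x i = y i) : agr k (o x) (o y) := by
  intro i hi
  unfold o
  rw [h i hi]

theorem ms_ph (e m v : ℕ) : MeasurableSet {x : Ca | ph e (o x) m v} := by
  have : {x : Ca | ph e (o x) m v} = ⋃ k, {x : Ca | GG (pre (o x) k) e m = some v} := by
    ext x; simp [ph]
  rw [this]
  refine MeasurableSet.iUnion fun k => ms_pre _ k ?_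
  intro a b hab h
  rw [← pre_eq_iff.2 (agr_o hab)]
  exact h

theorem ms_hit (a k v : ℕ) : MeasurableSet {x : Ca | hit x a k v} := by
  refine ms_pre _ k ?_
  intro x y hab h
  exact hit_agr h (agr_o hab)

theorem meas_jj : Measurable jj := by
  refine measurable_pi_lambda _ fun a => ?_
  have hJ : Measurable (fun x => J x a) := by
    refine measurable_to_countable' fun v => ?_
    rcases Nat.eq_zero_or_pos v with rfl | hv
    · have : (fun x => J x a) ⁻¹' {0} = (⋃ k, ⋃ v, {x : Ca | hit x a k v})ᶜ := by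
        ext x
        simp only [mem_preimage, mem_singleton_iff, mem_compl_iff, mem_iUnion, J_zero]
        push Not
        rfl
      rw [this]
      exact (MeasurableSet.iUnion fun k => MeasurableSet.iUnion fun v => ms_hit a k v).compl
    · obtain ⟨w, rfl⟩ : ∃ w, v = w + 1 := ⟨v - 1, by omega⟩
      have : (fun x => J x a) ⁻¹' {w + 1} = {x : Ca | hit x a w.unpair.1 w.unpair.2} := by
        ext x
        simp only [mem_preimage, mem_singleton_iff]
        conv_lhs => rw [← Nat.pair_unpair w]
        exact J_hit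
      rw [this]
      exact ms_hit _ _ _
  exact (measurable_of_countable (fun m : ℕ => 2 * m + 1)).comp hJ

/-- the `e`-th functional as a total function -/
noncomputable def fe (e : ℕ) (x : Ca) : Ca := fun n =>
  decide ((∀ m, ∃ b : Bool, ph e (o x) m b.toNat) ∧ ph e (o x) n 1)

theorem fe_P {e : ℕ} {x y : Ca} (h : P e x y) : fe e x = y := by
  have h0 : ∀ m, ∃ b : Bool, ph e (o x) m b.toNat := fun m => ⟨y m, h m⟩
  funext n
  unfold fe
  cases hy : y n
  · apply decide_eq_false
    rintro ⟨-, h1⟩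
    have := ph_unique h1 (h n)
    unfold o at this
    rw [hy] at this
    exact absurd this (by simp)
  · apply decide_eq_true
    refine ⟨h0, ?_⟩
    have := h n
    unfold o at this
    rw [hy] at this
    exact this

theorem tle_fe (e : ℕ) (x : Ca) : tle (fe e x) x := by
  by_cases h0 : ∀ m, ∃ b : Bool, ph e (o x) m b.toNat
  · choose y hy using h0
    have hP : P e x y := hy
    rw [fe_P hP]
    exact ⟨e, hP⟩
  · apply tle_iff'.1
    have h1 : fe e x = fun _ => false := by
      funext n
      exact decide_eq_false (fun h => h0 h.1)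
    rw [h1]
    have h2 := rec_primrec_comp (g := o x) (rec_refl _) (Primrec.const 0)
    exact h2

theorem tle_iff_fe {x y : Ca} : tle y x ↔ ∃ e, fe e x = y := by
  constructor
  · rintro ⟨e, h⟩; exact ⟨e, fe_P h⟩
  · rintro ⟨e, rfl⟩; exact tle_fe e x

theorem meas_fe (e : ℕ) : Measurable (fe e) := by
  refine measurable_pi_lambda _ fun n => ?_
  apply measurable_to_bool
  have : (fun x => fe e x n) ⁻¹' {true} = (⋂ m, ⋃ b : Bool, {x : Ca | ph e (o x) m b.toNat}) ∩
      {x : Ca | ph e (o x) n 1} := by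
    ext x
    simp only [mem_preimage, mem_singleton_iff, mem_inter_iff, mem_iInter, mem_iUnion, fe,
      decide_eq_true_eq]
    rfl
  rw [this]
  exact (MeasurableSet.iInter fun m => MeasurableSet.iUnion fun b => ms_ph _ _ _).inter
    (ms_ph _ _ _)

/-! ### decoding finite points -/

def Qb (m : ℕ) (s : List ℕ) : Prop := (((s.getD (Nat.pair idc m) 0) / 2 - 1).unpair.2 = 1)

noncomputable def xx (u : Sq) : Ca := fun m => decide (∃ N, ∀ n, N ≤ n → Qb m (S u n))

theorem xx_spec {u : Sq} {x : Ca} (h : F0 u (jj x)) : xx u = x := by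
  obtain ⟨n0, h1, h2⟩ := h
  have h3 : ∀ n, n0 ≤ n → S u n = pre (jj x) n := by
    intro n hn
    rw [S_shift h1 h2 hn, S_odd (jj_odd x)]
  have h4 : ∀ m n, n0 ≤ n → Nat.pair idc m < n → (Qb m (S u n) ↔ x m = true) := by
    intro m n hn hm
    unfold Qb
    rw [h3 n hn, List.getD_eq_getElem _ _ (by simpa using hm), getElem_pre]
    obtain ⟨k, hk⟩ := hit_id x m
    have h5 : jj x (Nat.pair idc m) = 2 * (Nat.pair k (o x m) + 1) + 1 := by
      unfold jj
      rw [J_hit.2 hk]
    rw [h5]
    have h6 : (2 * (Nat.pair k (o x m) + 1) + 1) / 2 - 1 = Nat.pair k (o x m) := by omega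
    rw [h6, Nat.unpair_pair]
    unfold o
    cases x m <;> simp
  funext m
  unfold xx
  cases hx : x m
  · apply decide_eq_false
    rintro ⟨N, hN⟩
    have := (h4 m (max N (max n0 (Nat.pair idc m + 1))) (by omega) (by omega)).1
      (hN _ (by omega))
    rw [hx] at this
    exact absurd this (by simp)
  · apply decide_eq_true
    exact ⟨max n0 (Nat.pair idc m + 1), fun n hn => (h4 m n (by omega) (by omega)).2 hx⟩

theorem S_pre {u v : Sq} {n : ℕ} (h : ∀ i < n, u i = v i) : S u n = S v n := S_congr h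

theorem meas_xx : Measurable xx := by
  refine measurable_pi_lambda _ fun m => ?_
  apply measurable_to_bool
  have : (fun u => xx u m) ⁻¹' {true} = ⋃ N, ⋂ n, ⋂ (_ : N ≤ n), {u : Sq | Qb m (S u n)} := by
    ext u
    simp only [mem_preimage, mem_singleton_iff, mem_iInter, mem_iUnion, xx,
      decide_eq_true_eq]
    rfl
  rw [this]
  refine MeasurableSet.iUnion fun N => MeasurableSet.iInter fun n => MeasurableSet.iInter fun _ => ?_
  refine ms_pre _ n ?_
  intro u v huv h
  rw [← S_pre huv]
  exact h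

/-- the finite points -/
def fin : Set Sq := {u | F0 u (jj (xx u))}

theorem mem_fin {u : Sq} : u ∈ fin ↔ ∃ x, F0 u (jj x) := by
  constructor
  · intro h; exact ⟨_, h⟩
  · rintro ⟨x, h⟩
    show F0 u (jj (xx u))
    rw [xx_spec h]
    exact h

theorem ms_F0 {g : Sq → Sq} (hg : Measurable g) : MeasurableSet {u | F0 u (g u)} := by
  have : {u | F0 u (g u)} = ⋃ n, ((⋂ i, ⋂ (_ : n ≤ i), {u : Sq | u i = g u i}) ∩
      {u : Sq | encode (S u n) = encode (S (g u) n)}) := by
    ext u
    simp only [mem_iInter, mem_iUnion, mem_inter_iff]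
    constructor
    · rintro ⟨n, h1, h2⟩
      exact ⟨n, h1, congrArg encode h2⟩
    · rintro ⟨n, h1, h2⟩
      exact ⟨n, h1, encode_injective h2⟩
  rw [this]
  have hS : ∀ n, Measurable (fun u : Sq => encode (S u n)) := by
    intro n
    refine meas_pre _ n ?_
    intro a b hab
    show encode (S a n) = encode (S b n)
    rw [S_pre hab]
  refine MeasurableSet.iUnion fun n => MeasurableSet.inter ?_ ?_
  · refine MeasurableSet.iInter fun i => MeasurableSet.iInter fun _ => ?_
    exact measurableSet_eq_fun (measurable_pi_apply i) ((measurable_pi_apply i).comp hg)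
  · exact measurableSet_eq_fun (hS n) ((hS n).comp hg)

theorem ms_fin : MeasurableSet fin := ms_F0 (meas_jj.comp meas_xx)

/-! ### the junk embedding -/

noncomputable def val (k : ℕ) (u : Sq) (i : ℕ) : ℕ :=
  Nat.pair k (Nat.pair (u i) (encode (S u (i + 1))))

noncomputable def cf (k : ℕ) (u : Sq) : Ca := fun m => decide (val k u m.unpair.1 = m.unpair.2)

theorem cf_pair (k : ℕ) (u : Sq) (i v : ℕ) : cf k u (Nat.pair i v) = true ↔ val k u i = v := by
  unfold cf
  rw [Nat.unpair_pair, decide_eq_true_eq]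

theorem val_inj {k l : ℕ} {u v : Sq} {i : ℕ} (h : val k u i = val l v i) :
    k = l ∧ u i = v i ∧ S u (i + 1) = S v (i + 1) := by
  obtain ⟨h1, h2⟩ := Nat.pair_eq_pair.1 h
  obtain ⟨h3, h4⟩ := Nat.pair_eq_pair.1 h2
  exact ⟨h1, h3, encode_injective h4⟩

theorem cf_inj {k l : ℕ} {u v : Sq} (h : cf k u = cf l v) : k = l ∧ u = v := by
  have h1 : ∀ i, val k u i = val l v i := by
    intro i
    have h2 := (cf_pair k u i _).2 rfl
    rw [h, cf_pair] at h2
    exact h2.symm
  exact ⟨(val_inj (h1 0)).1, funext fun i => (val_inj (h1 i)).2.1⟩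

theorem cf_E0 {k l : ℕ} {u v : Sq} : E0 (cf k u) (cf l v) ↔ k = l ∧ F0 u v := by
  constructor
  · rintro ⟨N, hN⟩
    have h1 : ∀ i, N ≤ i → val k u i = val l v i := by
      intro i hi
      have h2 := (cf_pair k u i _).2 rfl
      rw [hN _ (le_trans hi (Nat.left_le_pair _ _)), cf_pair] at h2
      exact h2.symm
    refine ⟨(val_inj (h1 N le_rfl)).1, N + 1, fun i hi => (val_inj (h1 i (by omega))).2.1,
      (val_inj (h1 N le_rfl)).2.2⟩
  · rintro ⟨rfl, n, h1, h2⟩
    have h3 : ∀ i, n ≤ i → val k u i = val k v i := by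
      intro i hi
      unfold val
      rw [h1 i hi, S_shift h1 h2 (m := i + 1) (by omega)]
    obtain ⟨N, hN⟩ := Pool.Agent.Helper760.OracleNF.exists_unif n
      (fun i N => Nat.pair i (val k u i) < N ∧ Nat.pair i (val k v i) < N)
      (fun j k k' h h' => ⟨lt_of_lt_of_le h'.1 h, lt_of_lt_of_le h'.2 h⟩)
      (fun j _ => ⟨Nat.pair j (val k u j) + Nat.pair j (val k v j) + 1, by omega, by omega⟩)
    refine ⟨N, fun m hm => ?_⟩
    obtain ⟨i, w, rfl⟩ : ∃ i w, m = Nat.pair i w := ⟨m.unpair.1, m.unpair.2, by simp⟩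
    rw [Bool.eq_iff_iff, cf_pair, cf_pair]
    rcases lt_or_ge i n with hi | hi
    · constructor
      · rintro rfl
        exact absurd (hN i hi).1 (by omega)
      · rintro rfl
        exact absurd (hN i hi).2 (by omega)
    · rw [h3 i hi]

noncomputable def rr (k : ℕ) (u : Sq) : Ca := psi (cf k u)

/-- Turing equivalence -/
def EE (x y : Ca) : Prop := tle x y ∧ tle y x

theorem EE.symm {x y : Ca} (h : EE x y) : EE y x := ⟨h.2, h.1⟩
theorem EE.trans {x y z : Ca} (h : EE x y) (h' : EE y z) : EE x z :=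
  ⟨tle_trans h.1 h'.1, tle_trans h'.2 h.2⟩
theorem EE.refl (x : Ca) : EE x x := ⟨tle_refl x, tle_refl x⟩

theorem rr_inj {k l : ℕ} {u v : Sq} (h : rr k u = rr l v) : k = l ∧ u = v := cf_inj (psi_inj h)

theorem rr_EE {k l : ℕ} {u v : Sq} : EE (rr k u) (rr l v) ↔ k = l ∧ F0 u v := by
  rw [← cf_E0]
  constructor
  · intro h
    by_contra hc
    exact psi_not hc h.2
  · intro h
    refine ⟨psi_E0 h, psi_E0 ?_⟩
    obtain ⟨n, hn⟩ := h
    exact ⟨n, fun i hi => (hn i hi).symm⟩

theorem rr_zz (k : ℕ) (u : Sq) : ¬ tle zz (rr k u) := psi_zz _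

theorem meas_psi : Measurable psi := by
  refine measurable_pi_lambda _ fun i => ?_
  refine meas_pre _ (i + 1) ?_
  intro a b hab
  unfold psi
  rw [wrd_congr hab]

theorem meas_cf (k : ℕ) : Measurable (cf k) := by
  refine measurable_pi_lambda _ fun m => ?_
  refine meas_pre _ (m.unpair.1 + 1) ?_
  intro a b hab
  unfold cf val
  rw [hab _ (Nat.lt_succ_self _), S_pre hab]

theorem meas_rr (k : ℕ) : Measurable (rr k) := meas_psi.comp (meas_cf k)

noncomputable def rp (p : ℕ × Sq) : Ca := rr p.1 p.2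

theorem meas_rp : Measurable rp :=
  measurable_from_prod_countable_right fun k => meas_rr k

theorem rp_inj : Function.Injective rp := by
  rintro ⟨k, u⟩ ⟨l, v⟩ h
  obtain ⟨h1, h2⟩ := rr_inj h
  exact Prod.ext h1 h2

theorem rinv_ex : ∃ g : Ca → ℕ × Sq, Measurable g ∧ g ∘ rp = id :=
  (meas_rp.measurableEmbedding rp_inj).exists_measurable_extend measurable_id
    (fun _ => inferInstance)

end Pool.Agent.H84R6
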